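import Pool.Agent.K7.H8.RE.Win
import Pool.Agent.K7.H2.FO.FinalE

set_option autoImplicit false

/-! General points: emptiness from the exact count of the rows. -/

namespace Pool.Agent.K7.H8.RE

open Finset Pool.Agent.K7.H2.FO Pool.Agent.K7.H2.RR Pool.Agent.TH176.Nag Pool.Agent.TH603.Sur
open Pool.Agent.TH183.QC Pool.Agent.TH183.QS Pool.Agent.H932R3
open Pool.Agent.TH183.QN (TT)

/-- the system of general points with multiplicities `w` -/
def esG {ι : Type} (w : ι → ℕ) : ES where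
  E := Emp w
  none := Emp_empty w
  mono h hS := h.mono hS
  comap h a b c d u v hd hS := h.comap a b c d u v hd hS
  flat0 hS h := Emp_flat0 hS h
  chart hN t e h := Emp_Q3z hN t e h

theorem keyE_esG {ι : Type} (w : ι → ℕ) : KeyE (esG w) := fun _ _ h0 h1 h =>
  Pool.Agent.TH603.EL.Emp_key h0 h1 h

theorem esG_cl (n m : ℕ) : EmpA (esG (fun _ : Fin n => m)) (Cl ((n * m : ℕ) : ℝ) (n : ℝ)) := by
  refine (Emp_rows (fun _ : Fin n => m) 0).mono ?_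
  rintro ⟨a, b⟩ ⟨h1, h2, h3⟩
  simp only at h1 h2 h3
  obtain ⟨k, rfl⟩ := Int.eq_ofNat_of_zero_le h2
  refine ⟨h2, h1, ?_⟩
  simp only [sum_const, card_univ, Fintype.card_fin, smul_eq_mul, Int.toNat_natCast, zero_add]
  have h4 : a + 1 + n * k ≤ n * m := by
    have : ((a + 1 + n * k : ℤ) : ℝ) ≤ ((n * m : ℤ) : ℝ) := by
      push_cast
      push_cast at h3
      exact h3
    exact_mod_cast this
  have hkm : k < m := by
    by_contra hcon
    push Not at hcon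
    have h5 : (m : ℤ) ≤ k := by exact_mod_cast hcon
    have h6 : (n : ℤ) * m ≤ n * k := mul_le_mul_of_nonneg_left h5 (by positivity)
    omega
  rw [Nat.cast_mul, Nat.cast_sub hkm.le, mul_sub]
  omega

theorem emp_low {n m d : ℕ} {M s1 s2 A1 A2 b1 b2 G u : ℤ} {L : ℕ} {tabs : List (List (ℤ × ℕ))}
    (hn : 10 ≤ n) (hirr : Irrational (√(n : ℝ))) (hc : cer n M s1 s2 A1 A2 b1 b2 G u L tabs = true)
    (hu : 0 ≤ u) {l : ℝ} (hlow : LowOk √(n : ℝ) (u / 1000) l) (hm : (n : ℝ) - 6 * √(n : ℝ) + 11 < m)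
    (h : √(n : ℝ) * m ≤ d)
    (ht : 2 * (d : ℝ) + 3 + l < √(n : ℝ) * (2 * m + 1)) : Emp (fun _ : Fin n => m) (TZ d) := by
  have hnR : (10 : ℝ) ≤ n := by exact_mod_cast hn
  have hss : √(n : ℝ) * √(n : ℝ) = n := Real.mul_self_sqrt (by linarith)
  have hs3 : 3 < √(n : ℝ) := by
    rw [Real.lt_sqrt (by norm_num)]
    linarith
  have huR : (0 : ℝ) ≤ u := by exact_mod_cast hu
  have hs3' : √(n : ℝ) - 3 ≠ 0 := by linarith
  obtain ⟨g, hg⟩ : ∃ g, g = 1 / 2 + (u : ℝ) / 1000 / (2 * (√(n : ℝ) - 3)) := ⟨_, rfl⟩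
  have hgv : (2 * g - 1) * (√(n : ℝ) - 3) = (u : ℝ) / 1000 := by
    rw [hg]
    field_simp
    ring
  obtain ⟨hg0, hL, H⟩ := cer_spec (g := g) (by omega) hc hss hs3 (by rw [hgv]; linarith)
  exact empA_low (keyE_esG _) hn hirr hL hg0 (by positivity) hgv H hlow hm h ht (esG_cl n m)

theorem gen_of_cer {r : ℕ} {M s1 s2 A1 A2 b1 b2 G u : ℤ} {K : ℕ} {tabs : List (List (ℤ × ℕ))}
    (hr : 10 ≤ r) (hsq : ¬ IsSquare r) (hc : cer r M s1 s2 A1 A2 b1 b2 G u K tabs = true)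
    (hu : 0 ≤ u) {l : ℝ} (hl : 0 ≤ l) (hlow : LowOk √(r : ℝ) (u / 1000) l) {m : ℕ} (hm : 1 ≤ m)
    {L : Type} [Field L] [CharZero L] :
    ∃ F : MvPolynomial (Fin r × Fin 2) ℚ, F ≠ 0 ∧ ∀ (P : Fin r → Fin 2 → L),
      MvPolynomial.aeval (fun ij : Fin r × Fin 2 => P ij.1 ij.2) F ≠ 0 →
      ∀ d : ℕ, (2 * (d : ℝ) + 3 + l < √(r : ℝ) * (2 * m + 1) ∨
          √(r : ℝ) * (2 * m + 1) + (u : ℝ) / 1000 ≤ 2 * (d : ℝ) + 3) →
        ExpDim L (fun _ => m) P d := by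
  have hrR : (10 : ℝ) ≤ r := by exact_mod_cast hr
  have hirr : Irrational (√(r : ℝ)) := by
    rw [irrational_sqrt_natCast_iff]
    exact hsq
  rcases le_or_gt (m : ℝ) (r - 6 * √(r : ℝ) + 11) with hsm | hlg
  · have hex : ∃ m' : ℕ, 1 ≤ m' ∧ (m = m' ∨ m = m' + 1) ∧ ((m' + 1 : ℕ) : ℝ) ≤ r - 6 * √(r : ℝ) + 11 := by
      rcases Nat.lt_or_ge m 2 with h2 | h2
      · refine ⟨1, le_rfl, Or.inl (by omega), ?_⟩
        have hss : √(r : ℝ) * √(r : ℝ) = r := Real.mul_self_sqrt (by linarith)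
        push_cast
        nlinarith [sq_nonneg (√(r : ℝ) - 3)]
      · refine ⟨m - 1, by omega, Or.inr (by omega), ?_⟩
        rw [Nat.sub_add_cancel (by omega)]
        exact hsm
    obtain ⟨m', hm1, hm2, hm3⟩ := hex
    obtain ⟨F, hF, hF'⟩ := near_points (L := L) (n := r) (m := m') hr hm1 (w := fun _ => m)
      (fun _ => hm2) (near_cond (by omega) (fun _ => hm2) (Or.inl hm3))
    exact ⟨F, hF, fun P hP d _ => hF' P hP d⟩
  obtain ⟨F1, hF1, hF1'⟩ := Pool.Agent.TH641.NW.expDim_uni_win2 (L := L) hr hm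
  obtain ⟨F2, hF2, hF2'⟩ := expDim_two (n := r) (w := fun _ => m)
    (A := fun d : ℕ => √(r : ℝ) * m ≤ d ∧ 2 * (d : ℝ) + 3 + l < √(r : ℝ) * (2 * m + 1))
    (B := fun d : ℕ => √(r : ℝ) * (2 * m + 1) + (u : ℝ) / 1000 ≤ 2 * (d : ℝ) + 3)
    (⌈√(r : ℝ) * (2 * m + 1)⌉₊)
    (fun d hd => by
      have h2 : (d : ℝ) ≤ √(r : ℝ) * (2 * m + 1) := by
        have h3 : (0 : ℝ) ≤ d := Nat.cast_nonneg d
        linarith [hd.2]
      have := h2.trans (Nat.le_ceil _)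
      exact_mod_cast this)
    (fun d hd => emp_low hr hirr hc hu hlow hlg hd.1 hd.2)
    (fun d hd => sur_TZ hr hirr (sur_rg hr hc (by linarith)))
  refine ⟨F1 * F2, mul_ne_zero hF1 hF2, fun P hP d hd => ?_⟩
  rw [map_mul] at hP
  rcases hd with hd | hd
  · rcases lt_or_ge (d : ℝ) (√(r : ℝ) * m) with h | h
    · refine hF1' P (left_ne_zero_of_mul hP) d (Or.inl ?_)
      refine lt_of_le_of_lt (min_le_left _ _) ?_
      linarith
    · exact hF2' P (right_ne_zero_of_mul hP) d (Or.inl ⟨h, hd⟩)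
  · exact hF2' P (right_ne_zero_of_mul hP) d (Or.inr hd)

end Pool.Agent.K7.H8.RE
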