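import Pool.Agent.TH387.EX.Core
import Pool.Agent.K7.H8.RE.Gen
import Pool.Agent.TH885.NW.Prop

set_option autoImplicit false

/-!
# Q1 for twelve numbers of points between 15 and 35: both ends of the open window

Write `t = (2 d + 3) - √r (2 m + 1)`. For `r` general points of multiplicity `m` and
`r = 15, 24, 26, 27, ..., 35` the scheme `m Y` is `AH₂(d)` and the equivalence of Q1 holds for
`t < - lo r` and for `t ≥ up r`, where `lo r` is between `0.511` and `0.884` (before: between `0.873` and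
`1.11`) and `up r` between `0.167` and `0.524`. In particular the upper density of the multiplicities
which are not settled in every degree is at most `(lo r + up r) / 2`, which is `0.339` for 34 points.
-/

namespace Pool.Agent.Results.MP_8707bd_ag.BothEndsTwelveNumbers

open MvPolynomial Pool.Agent.TH387.EX Filter

/-- For a general set `Y` of `r` points (one nonempty open set), `m Y` is `AH₂(d)` and the equivalence
of Q1 holds for all degrees `d` in the set `S`. -/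
def Settled (r m : ℕ) (S : Set ℕ) : Prop :=
  ∃ Φ : MvPolynomial (Fin r × Fin 2) ℂ, Φ ≠ 0 ∧ ∀ Y : Fin r → Fin 2 → ℂ,
    MvPolynomial.eval (fun ij : Fin r × Fin 2 => Y ij.1 ij.2) Φ ≠ 0 →
      ∀ d ∈ S, IsAH Y m d ∧ Equivalence Y m d

/-- The triples of `r`, `1000 * lo r` and `1000 * up r`. -/
def table : List (ℕ × ℕ × ℕ) :=
  [(15, 583, 524), (24, 884, 308), (26, 809, 299), (27, 792, 304), (28, 870, 473), (29, 752, 377),
    (30, 697, 318), (31, 775, 365), (32, 687, 333), (33, 557, 208), (34, 511, 167), (35, 589, 250)]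

/-- the elementary facts on the entries of the table -/
theorem facts {r l u : ℕ} (h : (r, l, u) ∈ table) : ∃ u' : ℕ, (r, l, u') ∈ K7.H8.RE.tableW ∧
    (u' ≤ u ∨ ((K7.H2.FO.thr r : ℝ) / 500 - 1) * (Real.sqrt r - 3) ≤ u / 1000) := by
  have key : ∀ (x : ℝ), (r : ℝ) ≤ x * x → 0 ≤ x → 500 ≤ (K7.H2.FO.thr r : ℝ) →
      ((K7.H2.FO.thr r : ℝ) / 500 - 1) * (x - 3) ≤ u / 1000 →
      ((K7.H2.FO.thr r : ℝ) / 500 - 1) * (Real.sqrt r - 3) ≤ u / 1000 := by
    intro x h1 h2 h3 h4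
    have h5 : Real.sqrt r ≤ x := Real.sqrt_le_iff.2 ⟨h2, by rw [pow_two]; exact h1⟩
    have h6 : ((K7.H2.FO.thr r : ℝ) / 500 - 1) * (Real.sqrt r - 3) ≤
        ((K7.H2.FO.thr r : ℝ) / 500 - 1) * (x - 3) :=
      mul_le_mul_of_nonneg_left (by linarith) (by linarith)
    linarith
  simp only [table, List.mem_cons, Prod.mk.injEq, List.not_mem_nil, or_false] at h
  rcases h with ⟨rfl, rfl, rfl⟩ | ⟨rfl, rfl, rfl⟩ | ⟨rfl, rfl, rfl⟩ | ⟨rfl, rfl, rfl⟩ | ⟨rfl, rfl, rfl⟩ |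
    ⟨rfl, rfl, rfl⟩ | ⟨rfl, rfl, rfl⟩ | ⟨rfl, rfl, rfl⟩ | ⟨rfl, rfl, rfl⟩ | ⟨rfl, rfl, rfl⟩ |
    ⟨rfl, rfl, rfl⟩ | ⟨rfl, rfl, rfl⟩
  · exact ⟨524, by decide +kernel, Or.inl le_rfl⟩
  · exact ⟨475, by decide +kernel, Or.inr (key 4.89898 (by norm_num) (by norm_num)
      (by norm_num [K7.H2.FO.thr]) (by norm_num [K7.H2.FO.thr]))⟩
  · exact ⟨416, by decide +kernel, Or.inr (key 5.09902 (by norm_num) (by norm_num)
      (by norm_num [K7.H2.FO.thr]) (by norm_num [K7.H2.FO.thr]))⟩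
  · exact ⟨407, by decide +kernel, Or.inr (key 5.19616 (by norm_num) (by norm_num)
      (by norm_num [K7.H2.FO.thr]) (by norm_num [K7.H2.FO.thr]))⟩
  · exact ⟨492, by decide +kernel, Or.inr (key 5.29151 (by norm_num) (by norm_num)
      (by norm_num [K7.H2.FO.thr]) (by norm_num [K7.H2.FO.thr]))⟩
  · exact ⟨380, by decide +kernel, Or.inr (key 5.38517 (by norm_num) (by norm_num)
      (by norm_num [K7.H2.FO.thr]) (by norm_num [K7.H2.FO.thr]))⟩
  · exact ⟨331, by decide +kernel, Or.inr (key 5.47723 (by norm_num) (by norm_num)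
      (by norm_num [K7.H2.FO.thr]) (by norm_num [K7.H2.FO.thr]))⟩
  · exact ⟨415, by decide +kernel, Or.inr (key 5.56777 (by norm_num) (by norm_num)
      (by norm_num [K7.H2.FO.thr]) (by norm_num [K7.H2.FO.thr]))⟩
  · exact ⟨333, by decide +kernel, Or.inl le_rfl⟩
  · exact ⟨208, by decide +kernel, Or.inl le_rfl⟩
  · exact ⟨167, by decide +kernel, Or.inl le_rfl⟩
  · exact ⟨250, by decide +kernel, Or.inl le_rfl⟩

theorem settled {r l u : ℕ} (h : (r, l, u) ∈ table) {m : ℕ} (hm : 1 ≤ m) :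
    Settled r m {d | 2 * (d : ℝ) + 3 - Real.sqrt r * (2 * m + 1) < -((l : ℝ) / 1000) ∨
      (u : ℝ) / 1000 ≤ 2 * d + 3 - Real.sqrt r * (2 * m + 1)} := by
  obtain ⟨u', hW, hu⟩ := facts h
  obtain ⟨h1, -, -, h4⟩ := K7.H8.RE.tableW_ok hW
  obtain ⟨hr, hsq, M, s1, s2, A1, A2, b1, b2, G, K, tabs, hc⟩ := K7.H2.RR.tableC_cer h1
  obtain ⟨F1, hF1, hF1'⟩ := K7.H8.RE.gen_of_cer (L := ℂ) (l := (l : ℝ) / 1000) hr hsq hc
    (Int.natCast_nonneg _) (by positivity) (by rw [Int.cast_natCast]; exact h4) hm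
  obtain ⟨F2, hF2, hF2'⟩ := K7.H2.FO.expDim_new (L := ℂ) hr hsq hm
  obtain ⟨Φ, hΦ, hΦ'⟩ := core hr (m := m)
    (S := {d : ℕ | 2 * (d : ℝ) + 3 - Real.sqrt r * (2 * m + 1) < -((l : ℝ) / 1000) ∨
      (u : ℝ) / 1000 ≤ 2 * d + 3 - Real.sqrt r * (2 * m + 1)})
    ⟨F1 * F2, mul_ne_zero hF1 hF2, fun P hP d hd => by
      rw [map_mul] at hP
      rw [Int.cast_natCast] at hF1'
      rcases hd with hd | hd
      · refine hF1' P (left_ne_zero_of_mul hP) d (Or.inl ?_)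
        linarith
      · rcases hu with hu | hu
        · refine hF1' P (left_ne_zero_of_mul hP) d (Or.inr ?_)
          have h5 : (u' : ℝ) ≤ u := by exact_mod_cast hu
          linarith
        · refine hF2' P (right_ne_zero_of_mul hP) d (Or.inr (Or.inr ?_))
          linarith⟩
  exact ⟨Φ, hΦ, fun Y hY d hd => (hΦ' Y hY).1 d hd⟩

theorem density {r l u : ℕ} (h : (r, l, u) ∈ table) {c : ℝ} (hc : ((l : ℝ) + u) / 2000 < c) :
    ∀ᶠ M : ℕ in atTop,
      (Set.ncard {m : ℕ | 1 ≤ m ∧ m < M ∧ ¬ Settled r m Set.univ} : ℝ) ≤ c * M := by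
  classical
  obtain ⟨u', hW, -⟩ := facts h
  obtain ⟨hr, hsq, -⟩ := K7.H2.RR.tableC_cer (K7.H8.RE.tableW_ok hW).1
  have hirr : Irrational (Real.sqrt r) := irrational_sqrt_natCast_iff.2 hsq
  obtain ⟨M0, hM0⟩ := TH885.NW.count_sharp hirr ((Real.sqrt r - 3) / 2) ((l : ℝ) / 1000 / 2)
    ((u : ℝ) / 1000 / 2) (by positivity) (sub_pos.2 hc)
  filter_upwards [eventually_ge_atTop ⌈M0⌉₊] with M hM
  have hM' : M0 ≤ M := (Nat.le_ceil M0).trans (by exact_mod_cast hM)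
  have hset : {m : ℕ | 1 ≤ m ∧ m < M ∧ ¬ Settled r m Set.univ} =
      ↑((Finset.range M).filter fun m => 1 ≤ m ∧ ¬ Settled r m Set.univ) := by
    ext m
    simp only [Set.mem_ofPred_eq, Finset.coe_filter, Finset.mem_range]
    tauto
  rw [hset, Set.ncard_coe_finset]
  have h1 := hM0 M hM' ((Finset.range M).filter fun m => 1 ≤ m ∧ ¬ Settled r m Set.univ)
    (fun m hm => Finset.mem_range.1 (Finset.mem_filter.1 hm).1) (fun m hm => by
      obtain ⟨h2, h3⟩ := (Finset.mem_filter.1 hm).2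
      by_contra hcon
      push Not at hcon
      apply h3
      obtain ⟨Φ, hΦ, hΦ'⟩ := settled h h2
      refine ⟨Φ, hΦ, fun Y hY d _ => hΦ' Y hY d ?_⟩
      rcases lt_or_ge (2 * (d : ℝ) + 3 - Real.sqrt r * (2 * m + 1)) (-((l : ℝ) / 1000)) with h4 | h4
      · exact Or.inl h4
      · right
        have h5 := hcon d (by push_cast; linarith)
        push_cast at h5
        linarith)
  have e : (l : ℝ) / 1000 / 2 + (u : ℝ) / 1000 / 2 + (c - ((l : ℝ) + u) / 2000) = c := by ring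
  rw [e] at h1
  exact h1

/-- **Q1 for twelve numbers of points: both ends of the open window.** -/
theorem result :
    (∀ r l u : ℕ, (r, l, u) ∈ table → ∀ m : ℕ, 1 ≤ m →
      Settled r m {d | 2 * (d : ℝ) + 3 - Real.sqrt r * (2 * m + 1) < -((l : ℝ) / 1000) ∨
        (u : ℝ) / 1000 ≤ 2 * d + 3 - Real.sqrt r * (2 * m + 1)}) ∧
    (∀ r l u : ℕ, (r, l, u) ∈ table → ∀ c : ℝ, ((l : ℝ) + u) / 2000 < c → ∀ᶠ M : ℕ in atTop,
      (Set.ncard {m : ℕ | 1 ≤ m ∧ m < M ∧ ¬ Settled r m Set.univ} : ℝ) ≤ c * M) :=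
  ⟨fun _ _ _ h _ hm => settled h hm, fun _ _ _ h _ hc => density h hc⟩

end Pool.Agent.Results.MP_8707bd_ag.BothEndsTwelveNumbers
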