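import Pool.Agent.K7.H2.RR.Count

set_option autoImplicit false

/-! The triangle of slope `3 s`, `s ^ 2 = n`: an upper bound for the number of columns with at least
`j + 1` points, from the bound for the number of bumps, by the reflection `(d, j) ↦ (- d, - 1 - j)`. -/

namespace Pool.Agent.K7.H8.RE

open Finset Pool.Agent.K7.H2.FO Pool.Agent.K7.H2.RR

/-- the columns of the triangle with at least `j + 1` points -/
def Row (s : ℝ) (d : ℕ) (j : ℤ) : Set ℤ := {x : ℤ | 0 ≤ x ∧ ∃ b : ℤ, 0 ≤ b ∧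
  (d : ℝ) / 3 - 1 / (3 * (s - 3)) * (x : ℝ) ≤ b ∧ (b : ℝ) + j ≤ (d : ℝ) / 3 - 1 / (3 * s) * (x : ℝ)}

theorem row_low {n m d L : ℕ} {s g u : ℝ} (hs : s * s = n) (hs3 : 3 < s) (hirr : Irrational s)
    (hu : (d : ℝ) = s * m + u) (hu0 : 0 ≤ u) (hL : s * (s - 3) ≤ L) (hg0 : 0 ≤ g)
    (H : ∀ (ψ : ℝ) (z : ℤ), 0 ≤ ψ → ψ * (s * (s - 3)) < 1 →
      (bumps L (1 / (s * (s - 3))) (1 / (3 * (s - 3))) ψ ((n * ψ + z) / 9)).card = 0 ∨
      ψ + 1 / (s * (s - 3)) *
        (((bumps L (1 / (s * (s - 3))) (1 / (3 * (s - 3))) ψ ((n * ψ + z) / 9)).card : ℝ) - 1) ≤ g)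
    {j q : ℕ} (hj : j < m)
    (hq : (⌊s * (s - 3) * j + s * u⌋ : ℝ) + q < s * (s - 3) * (j + 1 - g))
    {B : Finset ℤ} (hB : ∀ c ∈ B, c ∈ Row s d j) :
    B.card + q ≤ n * (m - j) + (if j = 0 ∧ 3 ∣ d then 1 else 0) := by
  classical
  have hs0 : 0 < s := by linarith
  have hs3' : 0 < s - 3 := by linarith
  obtain ⟨D, hDd⟩ : ∃ D, D = s * (s - 3) := ⟨_, rfl⟩
  have hD : 0 < D := by rw [hDd]; exact mul_pos hs0 hs3'
  obtain ⟨δ, hδ⟩ : ∃ δ, δ = 1 / (s * (s - 3)) := ⟨_, rfl⟩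
  obtain ⟨β, hβ⟩ : ∃ β, β = 1 / (3 * (s - 3)) := ⟨_, rfl⟩
  rw [← hδ, ← hβ, ← hDd] at H
  rw [← hDd] at hq hL
  have hδ0 : 0 < δ := by rw [hδ]; positivity
  have hDδ : D * δ = 1 := by rw [hδ, hDd]; field_simp
  have hβδ : β - δ = 1 / (3 * s) := by rw [hβ, hδ]; field_simp
  have h9β : 9 * β = n * δ - 1 := by
    rw [hβ, hδ, ← hs]
    field_simp
    ring
  obtain ⟨X, hX⟩ : ∃ X : ℤ, X = ⌊D * ((j : ℝ) + 1)⌋ := ⟨_, rfl⟩
  have hX1 : (X : ℝ) ≤ D * (j + 1) := by rw [hX]; exact Int.floor_le _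
  have hX2 : D * ((j : ℝ) + 1) < X + 1 := by rw [hX]; exact Int.lt_floor_add_one _
  obtain ⟨N, hN⟩ : ∃ N : ℤ, N = ⌊s * ((d : ℝ) - 3 * j)⌋ := ⟨_, rfl⟩
  have hjm : (j : ℝ) + 1 ≤ m := by exact_mod_cast hj
  have hNX : X ≤ N := by
    rw [hX, hN]
    apply Int.floor_le_floor
    rw [hDd, mul_assoc]
    apply mul_le_mul_of_nonneg_left _ hs0.le
    rw [hu]
    nlinarith [mul_le_mul_of_nonneg_left hjm hs0.le]
  have hNe : N = n * (m - j) + ⌊D * j + s * u⌋ := by
    have e : s * ((d : ℝ) - 3 * j) = (D * j + s * u) + ((n * (m - j) : ℤ) : ℝ) := by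
      push_cast
      rw [hu, hDd, ← hs]
      ring
    rw [hN, e, Int.floor_add_intCast]
    ring
  -- the three parts of `B`
  obtain ⟨B1, hB1⟩ : ∃ B1, B1 = B.filter fun x => X < x := ⟨_, rfl⟩
  obtain ⟨B2, hB2⟩ : ∃ B2, B2 = B.filter fun x => ¬ X < x := ⟨_, rfl⟩
  have hsplit : B1.card + B2.card = B.card := by
    rw [hB1, hB2]
    exact card_filter_add_card_filter_not _
  have hc1 : (B1.card : ℤ) ≤ N - X := by
    have hsub : B1 ⊆ Finset.Ioc X N := by
      intro x hx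
      rw [hB1, mem_filter] at hx
      obtain ⟨hx0, b, hb0, -, hb2⟩ := hB x hx.1
      rw [Finset.mem_Ioc]
      refine ⟨hx.2, ?_⟩
      rw [hN]
      apply Int.le_floor.2
      have hb0R : (0 : ℝ) ≤ b := by exact_mod_cast hb0
      have h1 : 1 / (3 * s) * (x : ℝ) ≤ (d : ℝ) / 3 - j := by
        push_cast at hb2
        linarith
      have h2 := mul_le_mul_of_nonneg_left h1 (show (0 : ℝ) ≤ 3 * s by linarith)
      have e1 : 3 * s * (1 / (3 * s) * (x : ℝ)) = x := by field_simp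
      have e2 : 3 * s * ((d : ℝ) / 3 - j) = s * (d - 3 * j) := by ring
      rw [e1, e2] at h2
      exact h2
    have h1 := card_le_card hsub
    rw [Int.card_Ioc] at h1
    omega
  -- the bumps
  obtain ⟨ψ, hψ⟩ : ∃ ψ, ψ = (j : ℝ) + 1 - δ * X := ⟨_, rfl⟩
  have hψD : ψ * D = D * (j + 1) - X := by rw [hψ]; linear_combination (-(X : ℝ)) * hDδ
  have hψ0 : 0 ≤ ψ := by
    by_contra hcon
    push Not at hcon
    have := mul_neg_of_neg_of_pos hcon hD
    linarith
  have hψ1 : ψ * D < 1 := by linarith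
  obtain ⟨z, hz⟩ : ∃ z : ℤ, z = 3 * d + X - n * (j + 1) := ⟨_, rfl⟩
  have hH := H ψ z hψ0 hψ1
  obtain ⟨Bm, hBm⟩ : ∃ Bm : Finset ℕ, Bm = bumps L δ β ψ ((n * ψ + z) / 9) := ⟨_, rfl⟩
  rw [← hBm] at hH
  have hc2 : (B2.erase 0).card ≤ Bm.card := by
    refine card_le_card_of_injOn (fun x : ℤ => (X - x).toNat) ?_ ?_
    · intro x hx
      rw [mem_coe, mem_erase, hB2, mem_filter] at hx
      obtain ⟨hx0, hxB, hxX⟩ := hx
      obtain ⟨hxn, b, hb0, hb1, hb2⟩ := hB x hxB
      rw [← hβ] at hb1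
      rw [← hβδ] at hb2
      push_cast at hb2
      have hxR : (x : ℝ) ≠ 0 := by exact_mod_cast hx0
      obtain ⟨w, hw⟩ : ∃ w, w = (d : ℝ) / 3 - β * x := ⟨_, rfl⟩
      have hb1' : w ≤ b := by rw [hw]; exact hb1
      have hb2' : (b : ℝ) + j ≤ w + δ * x := by rw [hw]; linarith
      have hne1 : w ≠ ⌊w⌋ := by
        intro h
        have h1 : ((d : ℝ) - 3 * ⌊w⌋) * (s - 3) = x := by
          have h2 : (d : ℝ) - 3 * ⌊w⌋ = 3 * β * x := by rw [← h, hw]; ring
          rw [h2, hβ]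
          field_simp
        have h3 : (d : ℝ) - 3 * ⌊w⌋ ≠ 0 := by
          intro h4
          rw [h4, zero_mul] at h1
          exact hxR h1.symm
        apply hirr
        refine ⟨(x : ℚ) / ((d : ℚ) - 3 * (⌊w⌋ : ℚ)) + 3, ?_⟩
        push_cast
        rw [← h1]
        field_simp
        ring
      have hne2 : (b : ℝ) + j ≠ w + δ * x := by
        intro h
        have h1 : s * ((d : ℝ) - 3 * b - 3 * j) = x := by
          have h2 : (b : ℝ) + j = (d : ℝ) / 3 - (β - δ) * x := by rw [h, hw]; ring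
          rw [hβδ] at h2
          have h3 : (d : ℝ) - 3 * b - 3 * j = 1 / s * x := by
            have : (d : ℝ) - 3 * b - 3 * j = 3 * (1 / (3 * s) * x) := by linarith
            rw [this]
            field_simp
          rw [h3]
          field_simp
        have h3 : (d : ℝ) - 3 * b - 3 * j ≠ 0 := by
          intro h4
          rw [h4, mul_zero] at h1
          exact hxR h1.symm
        apply hirr
        refine ⟨(x : ℚ) / ((d : ℚ) - 3 * (b : ℚ) - 3 * (j : ℚ)), ?_⟩
        push_cast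
        rw [← h1]
        field_simp
      have hlt : (b : ℝ) + j < w + δ * x := lt_of_le_of_ne hb2' hne2
      have hbf : ⌊w⌋ + 1 ≤ b := by
        have h1 : (⌊w⌋ : ℝ) < b := lt_of_lt_of_le (lt_of_le_of_ne (Int.floor_le w) hne1.symm) hb1'
        have h2 : ⌊w⌋ < b := by exact_mod_cast h1
        omega
      have hbfR : (⌊w⌋ : ℝ) + 1 ≤ b := by exact_mod_cast hbf
      have hfr := Int.self_sub_floor w
      have hfr1 := Int.fract_lt_one w
      have hkey : (j : ℝ) + 1 - δ * x < Int.fract w := by linarith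
      have hxX' : x ≤ X := not_lt.1 hxX
      have hiR : (((X - x).toNat : ℕ) : ℝ) = X - x := by
        have h1 : (((X - x).toNat : ℕ) : ℤ) = X - x := Int.toNat_of_nonneg (by omega)
        have h2 : ((((X - x).toNat : ℕ) : ℤ) : ℝ) = ((X - x : ℤ) : ℝ) := by rw [h1]
        push_cast at h2
        exact h2
      rw [mem_coe, hBm]
      unfold bumps
      rw [mem_filter, mem_range]
      constructor
      · have h1 : (j : ℝ) < δ * x := by linarith
        have h2 := mul_lt_mul_of_pos_left h1 hD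
        have e : D * (δ * x) = x := by linear_combination (x : ℝ) * hDδ
        rw [e] at h2
        have h3 : (((X - x).toNat : ℕ) : ℝ) < L := by
          rw [hiR]
          linarith
        exact_mod_cast h3
      · rw [hiR]
        have e1 : ψ + δ * ((X : ℝ) - x) = (j : ℝ) + 1 - δ * x := by rw [hψ]; ring
        have e2 : ((n : ℝ) * ψ + z) / 9 + β * ((X : ℝ) - x) = w := by
          rw [hψ, hz, hw]
          push_cast
          linear_combination ((X : ℝ) / 9) * h9β
        rw [e1, e2]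
        exact hkey
    · intro x hx y hy hxy
      rw [mem_coe, mem_erase, hB2, mem_filter] at hx hy
      have h1 := hx.2.2
      have h2 := hy.2.2
      simp only at hxy
      omega
  have hc0 : B2.card ≤ (B2.erase 0).card + (if j = 0 ∧ 3 ∣ d then 1 else 0) := by
    by_cases h0 : (0 : ℤ) ∈ B2
    · have hj0 : j = 0 ∧ 3 ∣ d := by
        rw [hB2, mem_filter] at h0
        obtain ⟨-, b, hb0, hb1, hb2⟩ := hB 0 h0.1
        push_cast at hb1 hb2
        have h1 : (j : ℝ) ≤ 0 := by linarith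
        have h2 : (j : ℤ) ≤ 0 := by exact_mod_cast h1
        have h3 : (0 : ℝ) ≤ j := Nat.cast_nonneg j
        have h4 : (d : ℝ) = 3 * b := by linarith
        have h5 : (d : ℤ) = 3 * b := by exact_mod_cast h4
        omega
      rw [if_pos hj0, card_erase_add_one h0]
    · rw [erase_eq_of_notMem h0]
      omega
  have hbm : (Bm.card : ℝ) ≤ X + 1 - D * (j + 1 - g) := by
    rcases hH with h | h
    · rw [h]
      have := mul_nonneg hD.le hg0
      push_cast
      linarith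
    · have h1 := mul_le_mul_of_nonneg_left h hD.le
      have e : D * (ψ + δ * ((Bm.card : ℝ) - 1)) = D * (j + 1) - X + (Bm.card - 1) := by
        linear_combination hψD + ((Bm.card : ℝ) - 1) * hDδ
      rw [e] at h1
      linarith
  obtain ⟨ε, hε⟩ : ∃ ε : ℕ, ε = if j = 0 ∧ 3 ∣ d then 1 else 0 := ⟨_, rfl⟩
  rw [← hε] at hc0 ⊢
  have hfin : ((B.card : ℤ) : ℝ) + q < ((n * (m - j) : ℤ) : ℝ) + ε + 1 := by
    have h1 : (B.card : ℤ) ≤ (N - X) + Bm.card + ε := by omega
    have h2 : ((B.card : ℤ) : ℝ) ≤ (((N - X) + Bm.card + ε : ℤ) : ℝ) := by exact_mod_cast h1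
    rw [hNe] at h2
    push_cast at h2 ⊢
    linarith
  have hfin' : (B.card : ℤ) + q < n * (m - j) + ε + 1 := by exact_mod_cast hfin
  have hcast : ((n * (m - j) : ℕ) : ℤ) = n * ((m : ℤ) - j) := by
    rw [Nat.cast_mul, Nat.cast_sub hj.le]
  omega

/-- the row `0` for degrees divisible by three -/
theorem row_zero {n m d P : ℕ} {s u : ℝ} (hs : s * s = n) (hs3 : 3 < s)
    (hu : (d : ℝ) = s * m + u) (hu0 : 0 ≤ u) (hnm : 0 < n * m) (h3 : 3 ∣ d) (hP1 : s * u < P)
    (hP2 : (P : ℝ) < 3 * (s - 3))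
    {B : Finset ℤ} (hB : ∀ c ∈ B, c ∈ Row s d 0) : B.card ≤ n * m := by
  classical
  have hs0 : 0 < s := by linarith
  have hs3' : 0 < s - 3 := by linarith
  obtain ⟨e, he⟩ := h3
  have hN : ∀ c ∈ B, c = 0 ∨ (P : ℤ) + 1 ≤ c := by
    intro c hc
    obtain ⟨hc0, b, hb0, hb1, hb2⟩ := hB c hc
    by_contra hcon
    push Not at hcon
    obtain ⟨hc1, hc2⟩ := hcon
    have hc3 : (0 : ℝ) < c := by
      have : 0 < c := by omega
      exact_mod_cast this
    have hc4 : (c : ℝ) ≤ P := by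
      have : c ≤ P := by omega
      exact_mod_cast this
    have hdR : (d : ℝ) = 3 * e := by rw [he]; push_cast; ring
    have h5 : 1 / (3 * (s - 3)) * (c : ℝ) < 1 := by
      rw [one_div_mul_eq_div, div_lt_one (by linarith)]
      linarith
    have h6 : 0 < 1 / (3 * s) * (c : ℝ) := by positivity
    rw [hdR] at hb1 hb2
    push_cast at hb2
    have h7 : (e : ℝ) - 1 < b := by linarith
    have h8 : (b : ℝ) < e := by linarith
    have h9 : (e : ℤ) - 1 < b := by exact_mod_cast h7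
    have h10 : b < (e : ℤ) := by exact_mod_cast h8
    omega
  have hP0 : 0 < P := by
    have h1 : 0 ≤ s * u := mul_nonneg hs0.le hu0
    have h2 : (0 : ℝ) < P := lt_of_le_of_lt h1 hP1
    exact_mod_cast h2
  have hle : ∀ c ∈ B, c ≤ n * m + (P - 1) := by
    intro c hc
    obtain ⟨hc0, b, hb0, -, hb2⟩ := hB c hc
    have hb0R : (0 : ℝ) ≤ b := by exact_mod_cast hb0
    have h1 : 1 / (3 * s) * (c : ℝ) ≤ (d : ℝ) / 3 := by
      push_cast at hb2
      linarith
    have h2 := mul_le_mul_of_nonneg_left h1 (show (0 : ℝ) ≤ 3 * s by linarith)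
    have e1 : 3 * s * (1 / (3 * s) * (c : ℝ)) = c := by field_simp
    have e2 : 3 * s * ((d : ℝ) / 3) = n * m + s * u := by rw [hu, ← hs]; ring
    rw [e1, e2] at h2
    have h3 : (c : ℝ) < ((n * m + P : ℤ) : ℝ) := by push_cast; linarith
    have h4 : c < n * m + P := by exact_mod_cast h3
    omega
  have hsub : B ⊆ insert 0 (Finset.Icc ((P : ℤ) + 1) (n * m + (P - 1))) := by
    intro c hc
    rw [mem_insert, Finset.mem_Icc]
    rcases hN c hc with h | h
    · exact Or.inl h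
    · exact Or.inr ⟨h, hle c hc⟩
  have h1 := card_le_card hsub
  have h2 := card_insert_le (0 : ℤ) (Finset.Icc ((P : ℤ) + 1) (n * m + (P - 1)))
  rw [Int.card_Icc] at h2
  have h3 : (0 : ℤ) < n * m := by exact_mod_cast hnm
  have h4 : ((n * m : ℕ) : ℤ) = n * m := by push_cast; ring
  omega

/-- the top row -/
theorem row_top {n m d T : ℕ} {s u : ℝ} (hs : s * s = n) (hs3 : 3 < s)
    (hu : (d : ℝ) = s * m + u) (hu3 : u < 3)
    (hT : ∀ C : Finset ℤ, (∀ c ∈ C, s * u ≤ (c : ℝ) ∧ (c : ℝ) ≤ (3 + s) * u) → C.card ≤ T)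
    {B : Finset ℤ} (hB : ∀ c ∈ B, c ∈ Row s d m) : B.card ≤ T := by
  classical
  have hs0 : 0 < s := by linarith
  have hs3' : 0 < s - 3 := by linarith
  have key : ∀ c ∈ B, s * u ≤ ((c - (n * m - 3 * d) : ℤ) : ℝ) ∧
      ((c - (n * m - 3 * d) : ℤ) : ℝ) ≤ (3 + s) * u := by
    intro c hc
    obtain ⟨hc0, b, hb0, hb1, hb2⟩ := hB c hc
    push_cast at hb2
    have hδ : 1 / (3 * (s - 3)) * (c : ℝ) - 1 / (3 * s) * (c : ℝ) = 1 / (s * (s - 3)) * c := by
      field_simp
      ring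
    have h1 : (m : ℝ) ≤ 1 / (s * (s - 3)) * c := by linarith
    have h2 : s * (s - 3) * m ≤ c := by
      have := mul_le_mul_of_nonneg_left h1 (show 0 ≤ s * (s - 3) by positivity)
      have e : s * (s - 3) * (1 / (s * (s - 3)) * (c : ℝ)) = c := by field_simp
      rw [e] at this
      exact this
    have h3 : (s - 3) * (m : ℝ) / 3 ≤ 1 / (3 * s) * c := by
      have := mul_le_mul_of_nonneg_left h2 (show 0 ≤ 1 / (3 * s) by positivity)
      have e : 1 / (3 * s) * (s * (s - 3) * (m : ℝ)) = (s - 3) * m / 3 := by field_simp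
      rw [e] at this
      exact this
    have h4 : (b : ℝ) < 1 := by
      have e : (d : ℝ) / 3 - m - (s - 3) * m / 3 = u / 3 := by rw [hu]; ring
      linarith
    have hb : b = 0 := by
      have : b < 1 := by exact_mod_cast h4
      omega
    rw [hb] at hb1 hb2
    push_cast at hb1 hb2
    constructor
    · have h5 : (d : ℝ) / 3 ≤ 1 / (3 * (s - 3)) * c := by linarith
      have h6 := mul_le_mul_of_nonneg_left h5 (show 0 ≤ 3 * (s - 3) by linarith)
      have e1 : 3 * (s - 3) * (1 / (3 * (s - 3)) * (c : ℝ)) = c := by field_simp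
      rw [e1] at h6
      push_cast
      rw [hu] at h6
      rw [← hs, hu]
      linarith
    · have h5 : 1 / (3 * s) * (c : ℝ) ≤ (d : ℝ) / 3 - m := by linarith
      have h6 := mul_le_mul_of_nonneg_left h5 (show 0 ≤ 3 * s by linarith)
      have e1 : 3 * s * (1 / (3 * s) * (c : ℝ)) = c := by field_simp
      rw [e1] at h6
      push_cast
      rw [hu] at h6
      rw [← hs, hu]
      linarith
  have h1 := hT (B.image fun c => c - (n * m - 3 * d)) (by
    intro c hc
    rw [mem_image] at hc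
    obtain ⟨x, hx, rfl⟩ := hc
    exact key x hx)
  rwa [card_image_of_injective _ (sub_left_injective)] at h1

/-- there are no rows above the row `m` -/
theorem row_above {m d : ℕ} {s u : ℝ} (hs3 : 3 < s) (hu : (d : ℝ) = s * m + u) (hus : u < s)
    {c j : ℤ} (hc : c ∈ Row s d j) : j ≤ m := by
  have hs0 : 0 < s := by linarith
  have hs3' : 0 < s - 3 := by linarith
  obtain ⟨hc0, b, hb0, hb1, hb2⟩ := hc
  have hδ : 1 / (3 * (s - 3)) * (c : ℝ) - 1 / (3 * s) * (c : ℝ) = 1 / (s * (s - 3)) * c := by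
    field_simp
    ring
  have h1 : (j : ℝ) ≤ 1 / (s * (s - 3)) * c := by linarith
  have hb0R : (0 : ℝ) ≤ b := by exact_mod_cast hb0
  have h2 : (j : ℝ) ≤ (d : ℝ) / 3 - 1 / (3 * s) * c := by linarith
  have h3 : s * (s - 3) * j ≤ c := by
    have := mul_le_mul_of_nonneg_left h1 (show 0 ≤ s * (s - 3) by positivity)
    have e : s * (s - 3) * (1 / (s * (s - 3)) * (c : ℝ)) = c := by field_simp
    rw [e] at this
    exact this
  have h4 : (c : ℝ) ≤ s * (d - 3 * j) := by
    have := mul_le_mul_of_nonneg_left h2 (show 0 ≤ 3 * s by linarith)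
    have e : 3 * s * ((d : ℝ) / 3 - 1 / (3 * s) * c) = s * d - c := by field_simp
    rw [e] at this
    linarith
  have h5 : s * (s * j) ≤ s * d := by linarith
  have h6 := le_of_mul_le_mul_left h5 hs0
  rw [hu] at h6
  have h7 : s * (j : ℝ) < s * (m + 1) := by linarith
  have h8 := lt_of_mul_lt_mul_left h7 hs0.le
  have h9 : j < m + 1 := by exact_mod_cast h8
  omega

end Pool.Agent.K7.H8.RE
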