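import Pool.Agent.K7.H8.RE.Main

set_option autoImplicit false

/-! The lower end of the window from the certificate of the upper end. -/

namespace Pool.Agent.K7.H8.RE

open Finset Pool.Agent.K7.H2.FO Pool.Agent.K7.H2.RR Pool.Agent.TH176.Nag Pool.Agent.TH603.Sur
open Pool.Agent.TH183.QC Pool.Agent.TH183.QS
open Pool.Agent.TH183.QN (TT)

/-- the numerical condition for the lower end `l` if the upper end is `v`, `s = √n` -/
def LowOk (s v l : ℝ) : Prop :=
  (2 < s * (l - v) ∧ s - 3 < 6 + l) ∨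
  (v ≤ l ∧ 10 / 3 < s ∧ s < 9 ∧ (s + 3) * (s - 3 - l) ≤ 2) ∨
  (v ≤ l ∧ 4 < s ∧ s < 5 ∧ ∃ P Q : ℤ, (Q : ℝ) < s * (s - 3 - v) / 2 - 1 ∧
    (s + 3) * (s - 3 - l) / 2 < Q + 2 ∧ s * (s - 3 - l) / 2 < 2 ∧
    3 * s + (s + 3) * (s - 3 - l) / 2 < P ∧
    (P : ℝ) < 3 * ((s - 3 - v) / 2 - 1 / s) + 3 * s + s * (s - 3 - v) / 2)

theorem card_le_len {a b : ℝ} {C : Finset ℤ} (hC : ∀ c ∈ C, a ≤ (c : ℝ) ∧ (c : ℝ) ≤ b) (hab : a ≤ b) :
    (C.card : ℝ) ≤ b - a + 1 := by
  have hsub : C ⊆ Finset.Icc ⌈a⌉ ⌊b⌋ := by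
    intro c hc
    rw [Finset.mem_Icc]
    exact ⟨Int.ceil_le.2 (hC c hc).1, Int.le_floor.2 (hC c hc).2⟩
  have h1 := card_le_card hsub
  rw [Int.card_Icc] at h1
  rcases le_or_gt (⌊b⌋ + 1 - ⌈a⌉) 0 with h | h
  · rw [Int.toNat_of_nonpos h] at h1
    have : C.card = 0 := by omega
    rw [this]
    push_cast
    linarith
  · have h2 : (C.card : ℤ) ≤ ⌊b⌋ + 1 - ⌈a⌉ := by omega
    have h3 : (C.card : ℝ) ≤ ⌊b⌋ + 1 - ⌈a⌉ := by exact_mod_cast h2
    have h4 := Int.floor_le b
    have h5 := Int.le_ceil a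
    linarith

/-- emptiness in degree `d` for the abstract systems -/
theorem empA_low {w : ES} (key : KeyE w) {n m d L : ℕ} {g v l : ℝ} (hn : 10 ≤ n)
    (hirr : Irrational (√(n : ℝ))) (hL : √(n : ℝ) * (√(n : ℝ) - 3) ≤ L) (hg0 : 0 ≤ g) (hv0 : 0 ≤ v)
    (hgv : (2 * g - 1) * (√(n : ℝ) - 3) = v)
    (H : Bumps n L √(n : ℝ) g) (hlow : LowOk √(n : ℝ) v l)
    (hm : (n : ℝ) - 6 * √(n : ℝ) + 11 < m) (hd : √(n : ℝ) * m ≤ d)
    (ht : 2 * (d : ℝ) + 3 + l < √(n : ℝ) * (2 * m + 1))
    (h0 : EmpA w (Cl ((n * m : ℕ) : ℝ) (n : ℝ))) : EmpA w (TT d) := by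
  refine empA_TT key hn hirr ?_
  obtain ⟨s, hs⟩ : ∃ s, s = √(n : ℝ) := ⟨_, rfl⟩
  rw [← hs] at hirr hL hgv H hlow hm hd ht ⊢
  have hnR : (10 : ℝ) ≤ n := by exact_mod_cast hn
  have hss : s * s = n := by rw [hs]; exact Real.mul_self_sqrt (by linarith)
  have hs0' : 0 ≤ s := by rw [hs]; exact Real.sqrt_nonneg _
  have hs3 : 3 < s := by
    by_contra hcon
    push Not at hcon
    nlinarith
  have hs0 : 0 < s := by linarith
  obtain ⟨u, hu⟩ : ∃ u, u = (d : ℝ) - s * m := ⟨_, rfl⟩
  have hud : (d : ℝ) = s * m + u := by rw [hu]; ring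
  have hu0 : 0 ≤ u := by rw [hu]; linarith
  have hul : u < (s - 3 - l) / 2 := by
    rw [hu]
    have e : s * (2 * (m : ℝ) + 1) = 2 * (s * m) + s := by ring
    rw [e] at ht
    linarith
  have hU : (s - 3) * (1 - g) = (s - 3 - v) / 2 := by
    have : (s - 3) * (1 - g) = ((s - 3) - (2 * g - 1) * (s - 3)) / 2 := by ring
    rw [this, hgv]
  have hm3 : (s - 3) ^ 2 + 2 < (m : ℝ) := by
    have e : (s - 3) ^ 2 + 2 = s * s - 6 * s + 11 := by ring
    rw [e, hss]
    exact hm
  have hm2 : (2 : ℝ) < m := by nlinarith [sq_nonneg (s - 3)]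
  have hmN : 2 < m := by exact_mod_cast hm2
  -- `u` is not zero
  have hu0' : 0 < u := by
    refine lt_of_le_of_ne hu0 fun h => ?_
    apply hirr
    refine ⟨(d : ℚ) / m, ?_⟩
    have hm0 : (m : ℝ) ≠ 0 := by linarith
    push_cast
    rw [hud, ← h, add_zero]
    field_simp
  -- the gain of one
  have big : ∀ j : ℕ, 1 < s * ((s - 3 - v) / 2 - u) →
      (⌊s * (s - 3) * j + s * u⌋ : ℝ) + 1 < s * (s - 3) * (j + 1 - g) := by
    intro j hj
    have h1 := Int.floor_le (s * (s - 3) * j + s * u)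
    have e : s * (s - 3) * ((j : ℝ) + 1 - g) = s * (s - 3) * j + s * ((s - 3) * (1 - g)) := by ring
    rw [e, hU]
    linarith
  -- the case without a top row
  have small : (s + 3) * u < 1 → u < (s - 3 - v) / 2 → 10 / 3 < s → u < 3 → EmpA w (Rg s d) := by
    intro h1 h2 h3 h4
    refine empA_Rg (T := 0) (by omega) (by omega) hss hs3 hirr hud hu0 h4 hL hg0 H (by rw [hU]; exact h2)
      (Or.inr ⟨1, ?_, ?_⟩) ?_ ?_ h0
    · push_cast
      linarith
    · push_cast
      linarith
    · intro C hC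
      rw [Nat.le_zero, card_eq_zero, eq_empty_iff_forall_notMem]
      intro c hc
      obtain ⟨h5, h6⟩ := hC c hc
      have h7 : 0 < s * u := mul_pos hs0 hu0'
      have h8 : (0 : ℝ) < c := by linarith
      have h9 : (c : ℝ) < 1 := by linarith
      have h10 : 0 < c := by exact_mod_cast h8
      have h11 : c < 1 := by exact_mod_cast h9
      omega
    · intro j hj hj'
      omega
  -- the case of a large gain
  have large : 1 < s * ((s - 3 - v) / 2 - u) → u < 3 → EmpA w (Rg s d) := by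
    intro h1 h2
    obtain ⟨T, hT⟩ : ∃ T : ℕ, T = ⌊3 * u + 1⌋₊ := ⟨_, rfl⟩
    have hT1 : (T : ℝ) ≤ 3 * u + 1 := by rw [hT]; exact Nat.floor_le (by linarith)
    have hTm : T < m := by
      have h3 : 0 < (s - 3 - v) / 2 - u := by
        by_contra hcon
        push Not at hcon
        have := mul_nonpos_of_nonneg_of_nonpos hs0.le hcon
        linarith
      have h4 : (T : ℝ) < m := by nlinarith [sq_nonneg ((s - 3) - 3 / 4)]
      exact_mod_cast h4
    have h3 : u < (s - 3 - v) / 2 := by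
      by_contra hcon
      push Not at hcon
      have : (s - 3 - v) / 2 - u ≤ 0 := by linarith
      have := mul_nonpos_of_nonneg_of_nonpos hs0.le this
      linarith
    refine empA_Rg (T := T) (by omega) hTm hss hs3 hirr hud hu0 h2 hL hg0 H (by rw [hU]; exact h3)
      (Or.inl ?_) ?_ (fun j _ _ => big j h1) h0
    · have := big 0 h1
      simpa using this
    · intro C hC
      have h5 := card_le_len hC (by nlinarith)
      rw [hT]
      apply Nat.le_floor
      linarith
  rcases hlow with ⟨h1, h2⟩ | ⟨h1, h2, h2', h3⟩ | ⟨h1, h2, h2', P, Q, h3, h4, h5, h6, h7⟩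
  · refine large ?_ (by linarith)
    have h4 : s * (l - v) / 2 < s * ((s - 3 - v) / 2 - u) := by
      have : s * ((l - v) / 2) < s * ((s - 3 - v) / 2 - u) := mul_lt_mul_of_pos_left (by linarith) hs0
      linarith
    linarith
  · refine small ?_ (by linarith) h2 (by linarith)
    have := mul_lt_mul_of_pos_left hul (show 0 < s + 3 by linarith)
    linarith
  · rcases lt_or_ge ((s + 3) * u) 1 with hc | hc
    · exact small hc (by linarith) (by linarith) (by linarith)
    rcases lt_or_ge 1 (s * ((s - 3 - v) / 2 - u)) with hc' | hc'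
    · exact large hc' (by linarith)
    -- one point in the top row
    have g1 : (s - 3 - v) / 2 - 1 / s ≤ u := by
      have h8 : (s - 3 - v) / 2 - u ≤ 1 / s := by
        rw [le_div_iff₀ hs0]
        linarith
      linarith
    have g2 : (s + 3) * u < (s + 3) * (s - 3 - l) / 2 := by
      have := mul_lt_mul_of_pos_left hul (show 0 < s + 3 by linarith)
      linarith
    have g3 : s * u < s * (s - 3 - l) / 2 := by
      have := mul_lt_mul_of_pos_left hul hs0
      linarith
    refine empA_Rg (T := 1) (by omega) (by omega) hss hs3 hirr hud hu0 (by linarith) hL hg0 H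
      (by rw [hU]; linarith) (Or.inr ⟨2, ?_, ?_⟩) ?_ ?_ h0
    · push_cast
      linarith
    · push_cast
      linarith
    · intro C hC
      have hsub : C ⊆ {Q + 1} := by
        intro c hc
        obtain ⟨h8, h9⟩ := hC c hc
        have h10 : (Q : ℝ) < c := by linarith
        have h11 : (c : ℝ) < Q + 2 := by linarith
        have h12 : Q < c := by exact_mod_cast h10
        have h13 : c < Q + 2 := by exact_mod_cast h11
        rw [mem_singleton]
        omega
      simpa using card_le_card hsub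
    · intro j hj hj'
      have hjm : j + 1 = m := by omega
      have hjR : (m : ℝ) = j + 1 := by exact_mod_cast hjm.symm
      have e1 : s * (s - 3) * (j : ℝ) + s * u = (3 * s + (s + 3) * u) + ((n * m - 3 * d - n : ℤ) : ℝ) := by
        push_cast
        rw [hud, hjR, ← hss]
        ring
      have e2 : s * (s - 3) * ((j : ℝ) + 1 - g) = (3 * u + 3 * s + s * (s - 3 - v) / 2) +
          ((n * m - 3 * d - n : ℤ) : ℝ) := by
        have : s * (s - 3) * ((j : ℝ) + 1 - g) = s * (s - 3) * j + s * ((s - 3) * (1 - g)) := by ring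
        rw [this, hU]
        push_cast
        rw [hud, hjR, ← hss]
        ring
      rw [e1, e2, Int.floor_add_intCast]
      have h8 : ⌊3 * s + (s + 3) * u⌋ < P := by
        rw [Int.floor_lt]
        linarith
      have h9 : ((⌊3 * s + (s + 3) * u⌋ + 1 : ℤ) : ℝ) ≤ P := by exact_mod_cast h8
      push_cast at h9 ⊢
      linarith

end Pool.Agent.K7.H8.RE
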