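import Pool.Agent.K7.H8.RE.Win
import Pool.Agent.TH885.NW.Prop

set_option autoImplicit false

/-!
# General collisions of `r < 100` fat points: the lower end of the open window

Write `t = (2 d + 3) - √r (2 m + 1)`. For 79 numbers `r` between 12 and 97 (every non-square except 13),
for every `m`, every field `k` of characteristic zero and all `(c, a)` outside a hypersurface, the forms of
degree `d` through the subscheme of the plane with ideal
`(y - (a₀ + a₁ x + ... + a_(r-1) x ^ (r-1)), (x - c) ^ r) ^ m` have the expected dimension for all `d` with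
`t < - low r`, where `low r` is between `0.31` and `0.967`, so always less than one. With the upper ends
`up r` of the window (known before in this library), the upper density of the multiplicities which are not
settled in every degree is at most `(low r + up r) / 2`.
-/

namespace Pool.Agent.K7.H8.RE.LowerEndUpTo97

open Polynomial Filter

universe u

/-- The forms of degree `d` in three variables whose dehomogenisation lies in the ideal
`(y - ∑ a_j x ^ j, (x - c) ^ r) ^ m` of `k[x][y]`. -/
noncomputable def forms {k : Type u} [Field k] {r : ℕ} (m : ℕ) (c : k) (a : Fin r → k) (d : ℕ) :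
    Submodule k (MvPolynomial (Fin 3) k) :=
  MvPolynomial.homogeneousSubmodule (Fin 3) k d ⊓
    (Submodule.restrictScalars k
      ((Ideal.span {X - C (∑ j : Fin r, C (a j) * X ^ (j : ℕ)), C ((X - C c) ^ r)} :
        Ideal k[X][X]) ^ m)).comap
      (MvPolynomial.aeval ![C X, X, 1] :
        MvPolynomial (Fin 3) k →ₐ[k] k[X][X]).toLinearMap

/-- Over every field of characteristic zero, for all `(c, a)` outside a hypersurface, the space of
forms has the expected dimension in all degrees `d` in the set `S`. -/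
def Expected (r m : ℕ) (S : Set ℕ) : Prop :=
  ∀ (k : Type u) [Field k] [CharZero k],
    ∃ F : MvPolynomial (Fin (r + 1)) k, F ≠ 0 ∧
      ∀ (c : k) (a : Fin r → k), MvPolynomial.eval (Fin.cons c a : Fin (r + 1) → k) F ≠ 0 →
        ∀ d ∈ S, Module.finrank k (forms m c a d) = Nat.choose (d + 2) 2 - r * Nat.choose (m + 1) 2

/-- The triples of `r`, `1000 * low r` and `1000 * up r`, the two ends of the window of open degrees. -/
def table : List (ℕ × ℕ × ℕ) :=
  [(12, 310, 310), (14, 446, 434), (15, 583, 524), (17, 843, 465), (18, 967, 553), (19, 960, 620),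
    (20, 960, 589), (21, 965, 528), (22, 960, 596), (23, 965, 547), (24, 884, 475), (26, 809, 416),
    (27, 792, 407), (28, 870, 492), (29, 752, 380), (30, 697, 331), (31, 775, 415), (32, 687, 333),
    (33, 557, 208), (34, 511, 167), (35, 589, 250), (37, 575, 246), (38, 570, 245), (39, 518, 197),
    (40, 630, 313), (41, 689, 376), (42, 595, 286), (43, 622, 317), (44, 727, 425), (45, 782, 483),
    (46, 687, 392), (47, 666, 374), (48, 763, 474), (50, 764, 481), (51, 671, 390), (52, 651, 373),
    (53, 791, 516), (54, 874, 601), (55, 736, 466), (56, 745, 477), (57, 675, 410), (58, 765, 502),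
    (59, 845, 584), (60, 701, 442), (61, 614, 357), (62, 582, 327), (63, 728, 476), (65, 708, 459),
    (66, 573, 326), (67, 590, 345), (68, 529, 286), (69, 766, 525), (70, 679, 439), (71, 577, 339),
    (72, 553, 317), (73, 483, 248), (74, 564, 331), (75, 644, 413), (76, 549, 319), (77, 405, 177),
    (78, 432, 205), (79, 363, 137), (80, 441, 217), (82, 436, 215), (83, 404, 184), (84, 417, 198),
    (85, 382, 165), (86, 515, 299), (87, 608, 393), (88, 521, 307), (89, 439, 226), (90, 496, 285),
    (91, 540, 252), (92, 592, 246), (93, 681, 473), (94, 696, 397), (95, 747, 309), (96, 798, 279),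
    (97, 849, 372)]

theorem expected {r l u : ℕ} (h : (r, l, u) ∈ table) (m : ℕ) :
    Expected.{u} r m {d | 2 * (d : ℝ) + 3 - Real.sqrt r * (2 * m + 1) < -((l : ℝ) / 1000) ∨
      (u : ℝ) / 1000 ≤ 2 * d + 3 - Real.sqrt r * (2 * m + 1)} := by
  intro k _ _
  obtain ⟨F, hF, hF'⟩ := K7.H8.RE.wide_tab h m k
  refine ⟨F, hF, fun c a hca d hd => hF' c a hca d ?_⟩
  rcases hd with hd | hd
  · left; linarith
  · right; linarith

theorem density {r l u : ℕ} (h : (r, l, u) ∈ table) {c : ℝ} (hc : ((l : ℝ) + u) / 2000 < c) :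
    ∀ᶠ M : ℕ in atTop,
      (Set.ncard {m : ℕ | m < M ∧ ¬ Expected.{u} r m Set.univ} : ℝ) ≤ c * M := by
  classical
  obtain ⟨hr, hsq, -⟩ := K7.H2.RR.tableC_cer (K7.H8.RE.tableW_ok h).1
  have hirr : Irrational (Real.sqrt r) := irrational_sqrt_natCast_iff.2 hsq
  have hl0 : (0 : ℝ) ≤ (l : ℝ) / 1000 := by positivity
  have hu0 : (0 : ℝ) ≤ (u : ℝ) / 1000 := by positivity
  obtain ⟨M0, hM0⟩ := TH885.NW.count_sharp hirr ((Real.sqrt r - 3) / 2) ((l : ℝ) / 1000 / 2)
    ((u : ℝ) / 1000 / 2) (by linarith) (sub_pos.2 hc)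
  filter_upwards [eventually_ge_atTop ⌈M0⌉₊] with M hM
  have hM' : M0 ≤ M := (Nat.le_ceil M0).trans (by exact_mod_cast hM)
  have hset : {m : ℕ | m < M ∧ ¬ Expected.{u} r m Set.univ} =
      ↑((Finset.range M).filter fun m => ¬ Expected.{u} r m Set.univ) := by
    ext m
    simp only [Set.mem_ofPred_eq, Finset.coe_filter, Finset.mem_range]
  rw [hset, Set.ncard_coe_finset]
  have h1 := hM0 M hM' ((Finset.range M).filter fun m => ¬ Expected.{u} r m Set.univ)
    (fun m hm => Finset.mem_range.1 (Finset.mem_filter.1 hm).1) (fun m hm => by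
      have h3 := (Finset.mem_filter.1 hm).2
      by_contra hcon
      push Not at hcon
      apply h3
      intro k _ _
      obtain ⟨F, hF, hF'⟩ := expected h m k
      refine ⟨F, hF, fun c a hca d _ => hF' c a hca d ?_⟩
      rcases lt_or_ge (2 * (d : ℝ) + 3 - Real.sqrt r * (2 * m + 1)) (-((l : ℝ) / 1000)) with h4 | h4
      · exact Or.inl h4
      · right
        have h5 := hcon d (by push_cast; linarith)
        push_cast at h5
        linarith)
  have e : (l : ℝ) / 1000 / 2 + (u : ℝ) / 1000 / 2 + (c - ((l : ℝ) + u) / 2000) = c := by ring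
  rw [e] at h1
  exact h1

/-- **General collisions of `r < 100` fat points: the lower end of the open window.** -/
theorem result :
    (∀ r l u : ℕ, (r, l, u) ∈ table → ∀ m : ℕ,
      Expected.{u} r m {d | 2 * (d : ℝ) + 3 - Real.sqrt r * (2 * m + 1) < -((l : ℝ) / 1000)}) ∧
    (∀ r l u : ℕ, (r, l, u) ∈ table → ∀ c : ℝ, ((l : ℝ) + u) / 2000 < c → ∀ᶠ M : ℕ in atTop,
      (Set.ncard {m : ℕ | m < M ∧ ¬ Expected.{u} r m Set.univ} : ℝ) ≤ c * M) := by
  refine ⟨fun _ _ _ h m k _ _ => ?_, fun _ _ _ h _ hc => density h hc⟩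
  obtain ⟨F, hF, hF'⟩ := expected h m k
  exact ⟨F, hF, fun c a hca d hd => hF' c a hca d (Or.inl hd)⟩

end Pool.Agent.K7.H8.RE.LowerEndUpTo97
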