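import Pool.Agent.K7.H8.RE.Spread
import Pool.Agent.K7.H8.RE.Count
import Pool.Agent.TH183.QS.Fin

set_option autoImplicit false

/-! Emptiness from the exact count of the rows. -/

namespace Pool.Agent.K7.H8.RE

open Finset Pool.Agent.K7.H2.FO Pool.Agent.K7.H2.RR Pool.Agent.TH176.Nag Pool.Agent.TH603.Sur
open Pool.Agent.TH183.QC Pool.Agent.TH183.QS
open Pool.Agent.TH183.QN (TT)

/-- the bound for the number of bumps, for all phases -/
def Bumps (n L : ℕ) (s g : ℝ) : Prop := ∀ (ψ : ℝ) (z : ℤ), 0 ≤ ψ → ψ * (s * (s - 3)) < 1 →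
  (bumps L (1 / (s * (s - 3))) (1 / (3 * (s - 3))) ψ ((n * ψ + z) / 9)).card = 0 ∨
  ψ + 1 / (s * (s - 3)) *
    (((bumps L (1 / (s * (s - 3))) (1 / (3 * (s - 3))) ψ ((n * ψ + z) / 9)).card : ℝ) - 1) ≤ g

/-- emptiness for the triangle -/
theorem empA_Rg {w : ES} {n m d L T : ℕ} {s g u : ℝ} (hn : 0 < n) (hm : T < m) (hs : s * s = n)
    (hs3 : 3 < s) (hirr : Irrational s) (hu : (d : ℝ) = s * m + u) (hu0 : 0 ≤ u) (hu3 : u < 3)
    (hL : s * (s - 3) ≤ L) (hg0 : 0 ≤ g) (H : Bumps n L s g) (hug : u < (s - 3) * (1 - g))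
    (hz : (⌊s * u⌋ : ℝ) + 1 < s * (s - 3) * (1 - g) ∨ ∃ P : ℕ, s * u < P ∧ (P : ℝ) < 3 * (s - 3))
    (hT : ∀ C : Finset ℤ, (∀ c ∈ C, s * u ≤ (c : ℝ) ∧ (c : ℝ) ≤ (3 + s) * u) → C.card ≤ T)
    (hi : ∀ j : ℕ, j < m → m ≤ j + T →
      (⌊s * (s - 3) * j + s * u⌋ : ℝ) + 1 < s * (s - 3) * (j + 1 - g))
    (h0 : EmpA w (Cl ((n * m : ℕ) : ℝ) (n : ℝ))) : EmpA w (Rg s d) := by
  classical
  have hs0 : 0 < s := by linarith
  have hs3' : 0 < s - 3 := by linarith
  have hD : 0 < s * (s - 3) := mul_pos hs0 hs3'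
  have hrow : EmpA w {p : ℤ × ℤ | 0 ≤ p.2 ∧ p.1 ∈ Row s d p.2} := by
    have hn1 : n * m ≥ 1 := Nat.mul_pos hn (by omega)
    refine EmpA_exact (n := n) (m := m) (T := T) (a := 1) (by omega) (by omega) ?_ ?_ ?_ h0
    · rintro ⟨c, j⟩ ⟨h1, h2⟩
      exact ⟨h1, row_above hs3 hu (by linarith) h2⟩
    · intro j hj B hB
      have hB' : ∀ c ∈ B, c ∈ Row s d j := fun c hc => (hB c hc).2
      have hA : s * (s - 3) * j + s * u < s * (s - 3) * (j + 1 - g) := by
        have h1 := mul_lt_mul_of_pos_left hug hs0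
        have e : s * (s - 3) * ((j : ℝ) + 1 - g) = s * (s - 3) * j + s * ((s - 3) * (1 - g)) := by ring
        rw [e]
        linarith
      have hA' : (⌊s * (s - 3) * j + s * u⌋ : ℝ) + (0 : ℕ) < s * (s - 3) * (j + 1 - g) := by
        have := Int.floor_le (s * (s - 3) * j + s * u)
        push_cast
        linarith
      have hlow := row_low (q := 0) hs hs3 hirr hu hu0 hL hg0 H hj hA' hB'
      rcases Nat.lt_or_ge (j + T) m with hjT | hjT
      · refine ⟨?_, Or.inl (by omega)⟩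
        by_cases h0 : j = 0 ∧ 3 ∣ d
        · obtain ⟨rfl, h3⟩ := h0
          rw [Nat.sub_zero]
          rcases hz with hz | ⟨P, hP1, hP2⟩
          · have hq : (⌊s * (s - 3) * ((0 : ℕ) : ℝ) + s * u⌋ : ℝ) + (1 : ℕ) <
                s * (s - 3) * (((0 : ℕ) : ℝ) + 1 - g) := by
              push_cast
              simpa using hz
            have := row_low (q := 1) hs hs3 hirr hu hu0 hL hg0 H hj hq hB'
            rw [if_pos ⟨rfl, h3⟩, Nat.sub_zero] at this
            omega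
          · exact row_zero hs hs3 hu hu0 (by omega) h3 hP1 hP2 (by simpa using hB')
        · rw [if_neg h0] at hlow
          omega
      · have hj0 : ¬ (j = 0 ∧ 3 ∣ d) := by omega
        have hq : (⌊s * (s - 3) * j + s * u⌋ : ℝ) + (1 : ℕ) < s * (s - 3) * (j + 1 - g) := by
          push_cast
          exact hi j hj hjT
        have h1 := row_low (q := 1) hs hs3 hirr hu hu0 hL hg0 H hj hq hB'
        rw [if_neg hj0] at h1
        exact ⟨by omega, Or.inr (by omega)⟩
    · intro B hB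
      exact row_top hs hs3 hu hu3 hT fun c hc => (hB c hc).2
  refine EmpA_flat0 ?_ hrow
  intro a B hB k hk
  have hne : B.Nonempty := card_pos.1 (by omega)
  obtain ⟨h1, h2, h3, -⟩ := hB _ (B.min'_mem hne)
  obtain ⟨-, -, -, h4⟩ := hB _ (B.max'_mem hne)
  have hcard : B.card ≤ ((B.max' hne) - (B.min' hne) + 1).toNat := by
    have h2 : B ⊆ Finset.Icc (B.min' hne) (B.max' hne) := by
      intro b hb
      rw [Finset.mem_Icc]
      exact ⟨B.min'_le b hb, B.le_max' b hb⟩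
    have h3 := card_le_card h2
    rw [Int.card_Icc] at h3
    have e : (B.max' hne) + 1 - (B.min' hne) = (B.max' hne) - (B.min' hne) + 1 := by ring
    rwa [e] at h3
  have h5 : B.min' hne + k ≤ B.max' hne := by omega
  have h5R : ((B.min' hne : ℤ) : ℝ) + k ≤ ((B.max' hne : ℤ) : ℝ) := by exact_mod_cast h5
  refine ⟨by simp, h1, B.min' hne, h2, h3, ?_⟩
  simp only at h4 ⊢
  rw [Int.cast_natCast]
  linarith

/-- from the triangle of slope `3 √n` to the plane, emptiness -/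
theorem empA_TT {w : ES} (key : KeyE w) {n d : ℕ} (hn : 10 ≤ n) (hirr : Irrational (√(n : ℝ)))
    (h : EmpA w (Rg √(n : ℝ) d)) : EmpA w (TT d) := by
  obtain ⟨s, hs⟩ : ∃ s, s = √(n : ℝ) := ⟨_, rfl⟩
  rw [← hs] at h hirr
  have hnR : (10 : ℝ) ≤ n := by exact_mod_cast hn
  have hss : s * s = n := by rw [hs]; exact Real.mul_self_sqrt (by linarith)
  have hs0 : 0 ≤ s := by rw [hs]; exact Real.sqrt_nonneg _
  have hs3 : 3 < s := by
    by_contra hcon
    push Not at hcon
    nlinarith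
  obtain ⟨u, hu⟩ : ∃ u : ℤ, u = ⌊s⌋ := ⟨_, rfl⟩
  have hfr : Int.fract s = s - u := by rw [hu]; rfl
  refine key d (s - u) ?_ ?_ ?_
  · rw [← hfr]
    refine lt_of_le_of_ne (Int.fract_nonneg s) fun h0 => ?_
    have h1 : s = (⌊s⌋ : ℝ) := by
      have := Int.self_sub_floor s
      linarith [h0]
    exact (Int.not_irrational ⌊s⌋) (by rw [← h1]; exact hirr)
  · rw [← hfr]; exact Int.fract_lt_one s
  · refine h.comap (-1) (-(3 * (u - 1))) 0 1 ((u - 1) * d) 0 (by norm_num) ?_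
    rintro ⟨x, y⟩ ⟨h1, h2, h3⟩
    simp only at h1 h2 h3
    have h4 : (s - 3) * ((d : ℝ) - 3 * y) ≤ -x - 3 * (u - 1) * y + (u - 1) * d := by linarith
    have h5 : -(x : ℝ) - 3 * (u - 1) * y + (u - 1) * d ≤ s * ((d : ℝ) - 3 * y) := by linarith
    have h6 : 0 ≤ (d : ℝ) - 3 * y := by linarith
    have h7 : 0 ≤ (s - 3) * ((d : ℝ) - 3 * y) := mul_nonneg (by linarith) h6
    have h8 : (0 : ℝ) ≤ ((-1 * x + -(3 * (u - 1)) * y + (u - 1) * d : ℤ) : ℝ) := by
      push_cast
      linarith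
    refine ⟨by exact_mod_cast h8, by simp only; omega, ?_, ?_⟩
    · simp only
      push_cast
      have h9 := mul_le_mul_of_nonneg_left h4 (show 0 ≤ 1 / (3 * (s - 3)) by
        have : 0 < s - 3 := by linarith
        positivity)
      have e : 1 / (3 * (s - 3)) * ((s - 3) * ((d : ℝ) - 3 * y)) = d / 3 - y := by
        have : s - 3 ≠ 0 := by linarith
        field_simp
      rw [e] at h9
      have e2 : (-1 * (x : ℝ) + -(3 * ((u : ℝ) - 1)) * y + (u - 1) * d) =
        -x - 3 * (u - 1) * y + (u - 1) * d := by ring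
      rw [e2]
      linarith
    · simp only
      push_cast
      have h9 := mul_le_mul_of_nonneg_left h5 (show 0 ≤ 1 / (3 * s) by
        have : 0 < s := by linarith
        positivity)
      have e : 1 / (3 * s) * (s * ((d : ℝ) - 3 * y)) = d / 3 - y := by
        have : s ≠ 0 := by linarith
        field_simp
      rw [e] at h9
      have e2 : (-1 * (x : ℝ) + -(3 * ((u : ℝ) - 1)) * y + (u - 1) * d) =
        -x - 3 * (u - 1) * y + (u - 1) * d := by ring
      rw [e2]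
      linarith

end Pool.Agent.K7.H8.RE
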