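import Pool.Agent.TH183.QC.FlatE

set_option autoImplicit false

/-! Sorting the rows and spreading the top row, with exact counts: slack is needed only in the rows
near the top. -/

namespace Pool.Agent.K7.H8.RE

open Finset Pool.Agent.TH176.Nag Pool.Agent.TH603.Sur Pool.Agent.TH183.QC

/-- Rows with at most `n (m - j)` points for `j < m`, at most `T` points in the row `m`, and no further
rows; the rows `j` with `T > a (m - 1 - j)` have at most `n (m - j) - a` points. -/
theorem EmpA_exact {w : ES} {n m T a : ℕ} (ha : a ≤ n) (hTm : T ≤ a * m) {S : Set (ℤ × ℤ)}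
    (hpos : ∀ p ∈ S, 0 ≤ p.2 ∧ p.2 ≤ m)
    (hlow : ∀ j : ℕ, j < m → ∀ B : Finset ℤ, (∀ c ∈ B, ((c, (j : ℤ)) : ℤ × ℤ) ∈ S) →
      B.card ≤ n * (m - j) ∧ (T ≤ a * (m - 1 - j) ∨ B.card + a ≤ n * (m - j)))
    (htop : ∀ B : Finset ℤ, (∀ c ∈ B, ((c, (m : ℤ)) : ℤ × ℤ) ∈ S) → B.card ≤ T)
    (h : EmpA w (Cl ((n * m : ℕ) : ℝ) (n : ℝ))) : EmpA w S := by
  classical
  -- the bound of a row
  obtain ⟨ρ, hρ⟩ : ∃ ρ : ℕ → ℕ, ρ = fun j => if j < m then
      (if T ≤ a * (m - 1 - j) then n * (m - j) else n * (m - j) - a) else if j = m then T else 0 := ⟨_, rfl⟩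
  obtain ⟨σ, hσ⟩ : ∃ σ : ℕ, σ + a = n := ⟨n - a, by omega⟩
  have hn1 : ∀ j, j < m → n ≤ n * (m - j) := by
    intro j hj
    calc n = n * 1 := (mul_one n).symm
      _ ≤ n * (m - j) := Nat.mul_le_mul_left n (by omega)
  have hρ1 : ∀ j < m, ρ j ≤ n * (m - j) ∧ (T ≤ a * (m - 1 - j) ∨ ρ j + a ≤ n * (m - j)) := by
    intro j hj
    have := hn1 j hj
    rw [hρ]
    beta_reduce
    rw [if_pos hj]
    split_ifs with h1
    · exact ⟨le_rfl, Or.inl h1⟩
    · exact ⟨Nat.sub_le _ _, Or.inr (by omega)⟩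
  have hρm : ρ m = T := by rw [hρ]; simp
  have hρ2 : ∀ j, m < j → ρ j = 0 := by
    intro j hj
    rw [hρ]
    beta_reduce
    rw [if_neg (by omega), if_neg (by omega)]
  have hcard : ∀ (j : ℕ) (B : Finset ℤ), (∀ c ∈ B, ((c, (j : ℤ)) : ℤ × ℤ) ∈ S) → B.card ≤ ρ j := by
    intro j B hB
    rcases lt_trichotomy j m with hj | hj | hj
    · obtain ⟨h1, h2⟩ := hlow j hj B hB
      rw [hρ]
      beta_reduce
      rw [if_pos hj]
      split_ifs with h3
      · exact h1
      · have := h2.resolve_left h3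
        omega
    · subst hj
      rw [hρm]
      exact htop B hB
    · rw [hρ2 j hj, Nat.le_zero, card_eq_zero, eq_empty_iff_forall_notMem]
      intro c hc
      have := (hpos _ (hB c hc)).2
      simp only at this
      omega
  -- spread
  have hA : EmpA w {p : ℤ × ℤ | 0 ≤ p.2 ∧ 0 ≤ p.1 - σ * p.2 ∧ p.1 + 1 + a * p.2 ≤ n * m} := by
    refine h.comap 1 (-(σ : ℤ)) 0 1 0 0 (by norm_num) ?_
    rintro ⟨x, b⟩ ⟨g1, g2, g3⟩
    simp only at g1 g2 g3
    refine ⟨by simp only; linarith, by simp only; linarith, ?_⟩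
    simp only
    have e : (1 * x + -(σ : ℤ) * b + 0) + 1 + n * (0 * x + 1 * b + 0) ≤ (n * m : ℕ) := by
      have : (n : ℤ) = σ + a := by exact_mod_cast hσ.symm
      push_cast
      have e2 : (1 * x + -(σ : ℤ) * b + 0) + 1 + n * (0 * x + 1 * b + 0) = x + 1 + (n - σ) * b := by ring
      rw [e2]
      have e3 : (n : ℤ) - σ = a := by linarith
      rw [e3]
      exact g3
    exact_mod_cast e
  have hB : EmpA w {p : ℤ × ℤ | 0 ≤ p.2 ∧ 0 ≤ p.1 - σ * p.2 ∧ p.1 - σ * p.2 + 1 ≤ ρ p.2.toNat} := by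
    refine EmpA_flat0 ?_ hA
    intro c B hBm k hk
    have hB2 : ∀ b ∈ B, ∃ j : ℕ, b = j ∧ (σ * j : ℤ) ≤ c ∧ c + 1 ≤ ρ j + σ * j ∧ j ≤ m := by
      intro b hb
      obtain ⟨g1, g2, g3⟩ := hBm b hb
      simp only at g1 g2 g3
      obtain ⟨j, rfl⟩ := Int.eq_ofNat_of_zero_le g1
      simp only [Int.toNat_natCast] at g3
      refine ⟨j, rfl, by linarith, by linarith, ?_⟩
      by_contra hcon
      rw [hρ2 j (by omega)] at g3
      push_cast at g3
      linarith
    have hne : B.Nonempty := card_pos.1 (by omega)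
    obtain ⟨jm, hjm1, hjm2, hjm3, hjm4⟩ := hB2 _ (B.max'_mem hne)
    have hsub : B ⊆ Finset.Icc (0 : ℤ) (jm : ℤ) := by
      intro b hb
      rw [Finset.mem_Icc]
      obtain ⟨j, hj, -⟩ := hB2 b hb
      exact ⟨by omega, hjm1 ▸ B.le_max' b hb⟩
    have hkjm : k ≤ jm := by
      have h5 := card_le_card hsub
      rw [Int.card_Icc] at h5
      omega
    have hσc : (σ * k : ℤ) ≤ c := by
      have h5 : (σ * k : ℤ) ≤ σ * jm := mul_le_mul_of_nonneg_left (by exact_mod_cast hkjm) (by positivity)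
      linarith
    -- the bound for a row below the top
    have low : ∀ j : ℕ, j < m → k ≤ j → c + 1 ≤ ρ j + σ * j → c + 1 + a * k ≤ n * m := by
      intro j hj hkj hc
      have h1 := (hρ1 j hj).1
      have h2 : (ρ j : ℤ) ≤ n * (m - j) := by
        have : (ρ j : ℤ) ≤ ((n * (m - j) : ℕ) : ℤ) := by exact_mod_cast h1
        rwa [Nat.cast_mul, Nat.cast_sub hj.le] at this
      have h3 : (a * k : ℤ) ≤ a * j := mul_le_mul_of_nonneg_left (by exact_mod_cast hkj) (by positivity)
      have h4 : (n : ℤ) = σ + a := by exact_mod_cast hσ.symm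
      have h5 : (n : ℤ) * (m - j) + σ * j + a * j = n * m := by rw [h4]; ring
      linarith
    refine ⟨by simp, by simp only; linarith, ?_⟩
    simp only
    rcases Nat.lt_or_ge jm m with hlt | hge
    · exact low jm hlt hkjm hjm3
    · have hjmm : jm = m := le_antisymm hjm4 hge
      rw [hjmm, hρm] at hjm3
      have h4 : (n : ℤ) = σ + a := by exact_mod_cast hσ.symm
      rcases Nat.eq_zero_or_pos k with hk0 | hk0
      · subst hk0
        have h5 : (T : ℤ) ≤ a * m := by exact_mod_cast hTm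
        have h6 : (n : ℤ) * m = σ * m + a * m := by rw [h4]; ring
        push_cast
        linarith
      · -- remove the top row
        have hcard2 : k ≤ (B.erase (m : ℤ)).card := by
          have := Finset.pred_card_le_card_erase (s := B) (a := (m : ℤ))
          omega
        have hne2 : (B.erase (m : ℤ)).Nonempty := card_pos.1 (by omega)
        obtain ⟨j2, hj21, hj22, hj23, hj24⟩ :=
          hB2 _ (Finset.mem_of_mem_erase ((B.erase (m : ℤ)).max'_mem hne2))
        have hj2m : j2 < m := by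
          rcases Nat.lt_or_ge j2 m with h | h
          · exact h
          · exfalso
            have h7 : j2 = m := le_antisymm hj24 h
            have h8 := (B.erase (m : ℤ)).max'_mem hne2
            rw [hj21, h7] at h8
            exact Finset.notMem_erase _ _ h8
        have hsub2 : B.erase (m : ℤ) ⊆ Finset.Icc (0 : ℤ) (j2 : ℤ) := by
          intro b hb
          rw [Finset.mem_Icc]
          obtain ⟨j, hj, -⟩ := hB2 b (Finset.mem_of_mem_erase hb)
          exact ⟨by omega, hj21 ▸ (B.erase (m : ℤ)).le_max' b hb⟩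
        have hkj2 : k ≤ j2 + 1 := by
          have h5 := card_le_card hsub2
          rw [Int.card_Icc] at h5
          omega
        rcases Nat.lt_or_ge j2 k with hlt2 | hge2
        · have hk2 : k = j2 + 1 := by omega
          rcases (hρ1 j2 hj2m).2 with h7 | h7
          · have h8 : (T : ℤ) ≤ a * (m - 1 - j2) := by
              have : (T : ℤ) ≤ ((a * (m - 1 - j2) : ℕ) : ℤ) := by exact_mod_cast h7
              rwa [Nat.cast_mul, Nat.cast_sub (by omega), Nat.cast_sub (by omega)] at this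
            have h9 : (n : ℤ) * m = σ * m + a * (m - 1 - j2) + a * (j2 + 1) := by rw [h4]; ring
            rw [hk2]
            push_cast
            push_cast at h8
            linarith
          · have h8 : (ρ j2 : ℤ) + a ≤ n * (m - j2) := by
              have : ((ρ j2 + a : ℕ) : ℤ) ≤ ((n * (m - j2) : ℕ) : ℤ) := by exact_mod_cast h7
              rw [Nat.cast_mul, Nat.cast_sub hj2m.le] at this
              push_cast at this
              exact this
            have h9 : (n : ℤ) * m = n * (m - j2) + σ * j2 + a * j2 := by rw [h4]; ring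
            rw [hk2]
            push_cast
            linarith
        · exact low j2 hj2m hge2 hj23
  have hC : EmpA w {p : ℤ × ℤ | 0 ≤ p.2 ∧ 0 ≤ p.1 ∧ p.1 + 1 ≤ ρ p.2.toNat} := by
    refine hB.comap 1 (σ : ℤ) 0 1 0 0 (by norm_num) ?_
    rintro ⟨x, b⟩ ⟨g1, g2, g3⟩
    simp only at g1 g2 g3
    have e : 0 * x + 1 * b + 0 = b := by ring
    refine ⟨by simp only; linarith, by simp only; linarith, ?_⟩
    simp only
    rw [e]
    linarith
  -- sort
  have hC' : EmpA w {p : ℤ × ℤ | 0 ≤ p.1 ∧ 0 ≤ p.2 ∧ p.2 + 1 ≤ ρ p.1.toNat} := by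
    refine hC.comap 0 1 1 0 0 0 (by norm_num) ?_
    rintro ⟨x, b⟩ ⟨g1, g2, g3⟩
    simp only at g1 g2 g3
    have e : 1 * x + 0 * b + 0 = x := by ring
    have e' : 0 * x + 1 * b + 0 = b := by ring
    refine ⟨by simp only; linarith, by simp only; linarith, ?_⟩
    simp only
    rw [e, e']
    exact g3
  have hD : EmpA w {p : ℤ × ℤ | ((p.2, p.1) : ℤ × ℤ) ∈ S} := by
    refine EmpA_flat0 ?_ hC'
    intro j B hBm k hk
    have hj : 0 ≤ j := by
      obtain ⟨b, hb⟩ := card_pos.1 (show 0 < B.card by omega)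
      exact (hpos _ (hBm b hb)).1
    obtain ⟨j', rfl⟩ := Int.eq_ofNat_of_zero_le hj
    have h5 := hcard j' B hBm
    refine ⟨by simp, by simp, ?_⟩
    simp only [Int.toNat_natCast]
    omega
  refine hD.comap 0 1 1 0 0 0 (by norm_num) ?_
  rintro ⟨x, b⟩ hab
  simpa using hab

end Pool.Agent.K7.H8.RE
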