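import Pool.Agent.K7.H8.RE.Low
import Pool.Agent.K7.H2.RR.Table
import Pool.Agent.K7.H2.RR.AsmC
import Pool.Agent.K7.H55.AN.Win

set_option autoImplicit false

/-! The windows for `12 ≤ r ≤ 97`. -/

namespace Pool.Agent.K7.H8.RE

open Finset Pool.Agent.K7.H2.FO Pool.Agent.K7.H2.RR Pool.Agent.TH176.Nag Pool.Agent.TH603.Sur
open Pool.Agent.TH183.QC Pool.Agent.TH183.QS Pool.Agent.H932R2 Pool.Agent.H932R3
open Pool.Agent.TH183.QN (TT)

universe u

theorem empAt_low {n m d : ℕ} {M s1 s2 A1 A2 b1 b2 G u : ℤ} {L : ℕ} {tabs : List (List (ℤ × ℕ))}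
    (hn : 10 ≤ n) (hirr : Irrational (√(n : ℝ))) (hc : cer n M s1 s2 A1 A2 b1 b2 G u L tabs = true)
    (hu : 0 ≤ u) {l : ℝ} (hlow : LowOk √(n : ℝ) (u / 1000) l) (hm : (n : ℝ) - 6 * √(n : ℝ) + 11 < m)
    (ht : 2 * (d : ℝ) + 3 + l < √(n : ℝ) * (2 * m + 1)) : EmpAt n m d := by
  rcases lt_or_ge (d : ℝ) (m * √(n : ℝ)) with h | h
  · exact empAt_nagata (by omega) h
  · have hnR : (10 : ℝ) ≤ n := by exact_mod_cast hn
    have hss : √(n : ℝ) * √(n : ℝ) = n := Real.mul_self_sqrt (by linarith)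
    have hs3 : 3 < √(n : ℝ) := by
      rw [Real.lt_sqrt (by norm_num)]
      linarith
    have huR : (0 : ℝ) ≤ u := by exact_mod_cast hu
    have hs3' : √(n : ℝ) - 3 ≠ 0 := by linarith
    obtain ⟨g, hg⟩ : ∃ g, g = 1 / 2 + (u : ℝ) / 1000 / (2 * (√(n : ℝ) - 3)) := ⟨_, rfl⟩
    have hgv : (2 * g - 1) * (√(n : ℝ) - 3) = (u : ℝ) / 1000 := by
      rw [hg]
      field_simp
      ring
    obtain ⟨hg0, hL, H⟩ := cer_spec (g := g) (by omega) hc hss hs3 (by rw [hgv]; linarith)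
    exact EmpAt.of (empA_low (keyE n m) hn hirr hL hg0 (by positivity) hgv H hlow hm
      (by rw [mul_comm]; exact h) ht (es_cl n m))

/-- the windows `lo`, `hi` for `r` points, with the upper end included -/
def Wide (r : ℕ) (lo hi : ℝ) : Prop := ∀ (m : ℕ) (L : Type u) [Field L] [CharZero L],
    ∃ F : MvPolynomial (Fin (r + 1)) L, F ≠ 0 ∧
      ∀ (c : L) (a : Fin r → L), MvPolynomial.eval (Fin.cons c a : Fin (r + 1) → L) F ≠ 0 →
        ∀ d : ℕ, 2 * (d : ℝ) + 3 + lo < √(r : ℝ) * (2 * m + 1) ∨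
          √(r : ℝ) * (2 * m + 1) + hi ≤ 2 * (d : ℝ) + 3 → JetDim r m c a d

theorem Wide.good {r : ℕ} {lo hi : ℝ} (h : Wide.{u} r lo hi) : Pool.Agent.K7.H55.AN.Good.{u} r lo hi := by
  intro m L _ _
  obtain ⟨F, hF, hF'⟩ := h m L
  exact ⟨F, hF, fun c a hc d hd => hF' c a hc d (hd.imp id le_of_lt)⟩

theorem wide_of_cer {r : ℕ} {M s1 s2 A1 A2 b1 b2 G u : ℤ} {K : ℕ} {tabs : List (List (ℤ × ℕ))}
    (hr : 10 ≤ r) (hsq : ¬ IsSquare r) (hc : cer r M s1 s2 A1 A2 b1 b2 G u K tabs = true)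
    (hu : 0 ≤ u) {l : ℝ} (hl : 0 ≤ l) (hlow : LowOk √(r : ℝ) (u / 1000) l) :
    Wide.{u} r l (u / 1000) := by
  intro m L _ _
  rcases le_or_gt (m : ℝ) (r - 6 * √(r : ℝ) + 11) with hsm | hlg
  · obtain ⟨F, hF, hF'⟩ := coll_start (by omega) (Or.inl hsm) L
    exact ⟨F, hF, fun c a hc d _ => hF' c a hc d⟩
  have hirr : Irrational (√(r : ℝ)) := by
    rw [irrational_sqrt_natCast_iff]
    exact hsq
  obtain ⟨PL, hPL⟩ : ∃ PL : ℕ → Prop, PL = fun d : ℕ =>
      2 * (d : ℝ) + 3 + l < √(r : ℝ) * (2 * m + 1) := ⟨_, rfl⟩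
  obtain ⟨PH, hPH⟩ : ∃ PH : ℕ → Prop, PH = fun d : ℕ =>
      √(r : ℝ) * (2 * m + 1) + (u : ℝ) / 1000 ≤ 2 * (d : ℝ) + 3 := ⟨_, rfl⟩
  have k1 : ∃ N : ℕ, ∀ d, PL d → d ≤ N := by
    refine ⟨⌈√(r : ℝ) * (2 * m + 1)⌉₊, fun d hd => ?_⟩
    rw [hPL] at hd
    have h2 : (d : ℝ) ≤ √(r : ℝ) * (2 * m + 1) := by
      have h3 : (0 : ℝ) ≤ d := Nat.cast_nonneg d
      linarith
    have := h2.trans (Nat.le_ceil _)
    exact_mod_cast this
  have k2 : ∀ d, PL d → EmpAt r m d := by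
    intro d hd
    rw [hPL] at hd
    exact empAt_low hr hirr hc hu hlow hlg hd
  have k3 : ∀ d, PH d → IndAt r m d := by
    intro d hd
    rw [hPH] at hd
    exact indAt_cer hr hirr hc (by linarith)
  obtain ⟨F, hF, hF'⟩ := coll_wrap (r := r) (m := m) (by omega) k1 k2 k3 L
  refine ⟨F, hF, fun c a hc d hd => hF' c a hc d ?_⟩
  rw [hPL, hPH]
  exact hd

/-- the test for the lower end `l`, where `a ≤ 10000 √r < a + 1` -/
def lowTest (r l u a : ℕ) : Bool :=
  decide (a * a ≤ r * 100000000) && decide (r * 100000000 < (a + 1) * (a + 1)) && decide (u ≤ l) &&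
  ((decide (20000000 < a * (l - u)) && decide (a + 1 ≤ 90000 + 10 * l)) ||
   (decide (100000 < 3 * a) && decide (a + 1 < 90000) &&
    decide ((a + 1 + 30000) * (a + 1 - 30000 - 10 * l) ≤ 200000000)))

theorem lowTest_ok {r l u a : ℕ} (h : lowTest r l u a = true) :
    LowOk √(r : ℝ) ((u : ℝ) / 1000) ((l : ℝ) / 1000) := by
  unfold lowTest at h
  simp only [Bool.and_eq_true, Bool.or_eq_true, decide_eq_true_eq] at h
  obtain ⟨⟨⟨h1, h2⟩, h3⟩, h4⟩ := h
  obtain ⟨s, hs⟩ : ∃ s, s = √(r : ℝ) := ⟨_, rfl⟩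
  rw [← hs]
  have hs0 : 0 ≤ s := by rw [hs]; exact Real.sqrt_nonneg _
  have hss : s * s = r := by rw [hs]; exact Real.mul_self_sqrt (Nat.cast_nonneg _)
  have h1R : (a : ℝ) * a ≤ r * 100000000 := by exact_mod_cast h1
  have h2R : (r : ℝ) * 100000000 < (a + 1) * (a + 1) := by exact_mod_cast h2
  have h3R : (u : ℝ) ≤ l := by exact_mod_cast h3
  have ha0 : (0 : ℝ) ≤ a := Nat.cast_nonneg _
  have b1 : (a : ℝ) ≤ 10000 * s := by
    by_contra hcon
    push Not at hcon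
    nlinarith
  have b2 : 10000 * s < a + 1 := by
    by_contra hcon
    push Not at hcon
    nlinarith
  rcases h4 with ⟨h5, h6⟩ | ⟨⟨h5, h6⟩, h7⟩
  · left
    have h5R : (20000000 : ℝ) < a * (l - u) := by
      have := h5
      have e : ((l - u : ℕ) : ℝ) = l - u := Nat.cast_sub h3
      rw [← e]
      exact_mod_cast this
    have h6R : (a : ℝ) + 1 ≤ 90000 + 10 * l := by exact_mod_cast h6
    refine ⟨?_, by linarith⟩
    have h8 : (a : ℝ) * (l - u) ≤ 10000 * s * (l - u) := mul_le_mul_of_nonneg_right b1 (by linarith)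
    have e : s * ((l : ℝ) / 1000 - u / 1000) = 10000 * s * (l - u) / 10000000 := by ring
    rw [e]
    linarith
  · right
    left
    have h5R : (100000 : ℝ) < 3 * a := by exact_mod_cast h5
    have h6R : (a : ℝ) + 1 < 90000 := by exact_mod_cast h6
    refine ⟨by linarith, by linarith, by linarith, ?_⟩
    have h7R : ((a : ℝ) + 1 + 30000) * ((a + 1 - 30000 - 10 * l : ℕ) : ℝ) ≤ 200000000 := by
      exact_mod_cast h7
    have h8 : (a : ℝ) + 1 - 30000 - 10 * l ≤ ((a + 1 - 30000 - 10 * l : ℕ) : ℝ) := by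
      have : ((a : ℤ) + 1 - 30000 - 10 * l) ≤ ((a + 1 - 30000 - 10 * l : ℕ) : ℤ) := by omega
      exact_mod_cast this
    have h9 : (0 : ℝ) ≤ ((a + 1 - 30000 - 10 * l : ℕ) : ℝ) := Nat.cast_nonneg _
    have e : (s + 3) * (s - 3 - (l : ℝ) / 1000) =
        (10000 * s + 30000) * (10000 * s - 30000 - 10 * l) / 100000000 := by ring
    rw [e]
    have h10 : (10000 * s + 30000) * (10000 * s - 30000 - 10 * l) ≤
        (10000 * s + 30000) * ((a + 1 - 30000 - 10 * l : ℕ) : ℝ) :=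
      mul_le_mul_of_nonneg_left (by linarith) (by linarith)
    have h11 : (10000 * s + 30000) * ((a + 1 - 30000 - 10 * l : ℕ) : ℝ) ≤
        ((a : ℝ) + 1 + 30000) * ((a + 1 - 30000 - 10 * l : ℕ) : ℝ) :=
      mul_le_mul_of_nonneg_right (by linarith) h9
    linarith

/-- lower ends with their test values -/
def lowTab : List (ℕ × ℕ × ℕ × ℕ) :=
  [(12, 310, 310, 34641), (14, 446, 434, 37416), (15, 583, 524, 38729), (17, 843, 465, 41231),
    (18, 967, 553, 42426), (21, 965, 528, 45825), (23, 965, 547, 47958), (24, 884, 475, 48989),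
    (26, 809, 416, 50990), (27, 792, 407, 51961), (28, 870, 492, 52915), (29, 752, 380, 53851),
    (30, 697, 331, 54772), (31, 775, 415, 55677), (32, 687, 333, 56568), (33, 557, 208, 57445),
    (34, 511, 167, 58309), (35, 589, 250, 59160), (37, 575, 246, 60827), (38, 570, 245, 61644),
    (39, 518, 197, 62449), (40, 630, 313, 63245), (41, 689, 376, 64031), (42, 595, 286, 64807),
    (43, 622, 317, 65574), (44, 727, 425, 66332), (45, 782, 483, 67082), (46, 687, 392, 67823),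
    (47, 666, 374, 68556), (48, 763, 474, 69282), (50, 764, 481, 70710), (51, 671, 390, 71414),
    (52, 651, 373, 72111), (53, 791, 516, 72801), (54, 874, 601, 73484), (55, 736, 466, 74161),
    (56, 745, 477, 74833), (57, 675, 410, 75498), (58, 765, 502, 76157), (59, 845, 584, 76811),
    (60, 701, 442, 77459), (61, 614, 357, 78102), (62, 582, 327, 78740), (63, 728, 476, 79372),
    (65, 708, 459, 80622), (66, 573, 326, 81240), (67, 590, 345, 81853), (68, 529, 286, 82462),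
    (69, 766, 525, 83066), (70, 679, 439, 83666), (71, 577, 339, 84261), (72, 553, 317, 84852),
    (73, 483, 248, 85440), (74, 564, 331, 86023), (75, 644, 413, 86602), (76, 549, 319, 87177),
    (77, 405, 177, 87749), (78, 432, 205, 88317), (79, 363, 137, 88881), (80, 441, 217, 89442),
    (82, 436, 215, 90553), (83, 404, 184, 91104), (84, 417, 198, 91651), (85, 382, 165, 92195),
    (86, 515, 299, 92736), (87, 608, 393, 93273), (88, 521, 307, 93808), (89, 439, 226, 94339),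
    (90, 496, 285, 94868), (91, 540, 252, 95393), (92, 592, 246, 95916), (93, 681, 473, 96436),
    (94, 696, 397, 96953), (95, 747, 309, 97467), (96, 798, 279, 97979), (97, 849, 372, 98488)]

/-- the lower and the upper end of the window, in thousandths -/
def tableW : List (ℕ × ℕ × ℕ) :=
  [(12, 310, 310), (14, 446, 434), (15, 583, 524), (17, 843, 465), (18, 967, 553), (19, 960, 620),
    (20, 960, 589), (21, 965, 528), (22, 960, 596), (23, 965, 547), (24, 884, 475), (26, 809, 416),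
    (27, 792, 407), (28, 870, 492), (29, 752, 380), (30, 697, 331), (31, 775, 415), (32, 687, 333),
    (33, 557, 208), (34, 511, 167), (35, 589, 250), (37, 575, 246), (38, 570, 245), (39, 518, 197),
    (40, 630, 313), (41, 689, 376), (42, 595, 286), (43, 622, 317), (44, 727, 425), (45, 782, 483),
    (46, 687, 392), (47, 666, 374), (48, 763, 474), (50, 764, 481), (51, 671, 390), (52, 651, 373),
    (53, 791, 516), (54, 874, 601), (55, 736, 466), (56, 745, 477), (57, 675, 410), (58, 765, 502),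
    (59, 845, 584), (60, 701, 442), (61, 614, 357), (62, 582, 327), (63, 728, 476), (65, 708, 459),
    (66, 573, 326), (67, 590, 345), (68, 529, 286), (69, 766, 525), (70, 679, 439), (71, 577, 339),
    (72, 553, 317), (73, 483, 248), (74, 564, 331), (75, 644, 413), (76, 549, 319), (77, 405, 177),
    (78, 432, 205), (79, 363, 137), (80, 441, 217), (82, 436, 215), (83, 404, 184), (84, 417, 198),
    (85, 382, 165), (86, 515, 299), (87, 608, 393), (88, 521, 307), (89, 439, 226), (90, 496, 285),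
    (91, 540, 252), (92, 592, 246), (93, 681, 473), (94, 696, 397), (95, 747, 309), (96, 798, 279),
    (97, 849, 372)]

theorem sqrt_bounds {r : ℕ} {a b : ℝ} (ha : 0 ≤ a) (hb : 0 ≤ b) (h1 : a * a < r) (h2 : (r : ℝ) < b * b) :
    a < √(r : ℝ) ∧ √(r : ℝ) < b := by
  have hss : √(r : ℝ) * √(r : ℝ) = r := Real.mul_self_sqrt (Nat.cast_nonneg _)
  have hs0 : 0 ≤ √(r : ℝ) := Real.sqrt_nonneg _
  constructor
  · by_contra hcon
    push Not at hcon
    nlinarith
  · by_contra hcon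
    push Not at hcon
    nlinarith

/-- the third condition -/
theorem lowC {r : ℕ} {a b v l : ℝ} {P Q : ℤ} (ha : 4 < a) (hb : b < 5) (h1 : a * a < r) (h2 : (r : ℝ) < b * b)
    (hvl : v ≤ l) (hv : 0 ≤ v) (hlb : l ≤ b - 3) (hva : v ≤ a - 3)
    (h3 : (Q : ℝ) < a * (a - 3 - v) / 2 - 1) (h4 : (b + 3) * (b - 3 - l) / 2 < Q + 2)
    (h5 : b * (b - 3 - l) / 2 < 2) (h6 : 3 * b + (b + 3) * (b - 3 - l) / 2 < P)
    (h7 : (P : ℝ) < 3 * ((a - 3 - v) / 2 - 1 / a) + 3 * a + a * (a - 3 - v) / 2) : LowOk √(r : ℝ) v l := by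
  obtain ⟨g1, g2⟩ := sqrt_bounds (by linarith) (by linarith) h1 h2
  obtain ⟨s, hs⟩ : ∃ s, s = √(r : ℝ) := ⟨_, rfl⟩
  rw [← hs] at g1 g2 ⊢
  have k1 : a * (a - 3 - v) ≤ s * (s - 3 - v) :=
    mul_le_mul (by linarith) (by linarith) (by linarith) (by linarith)
  have k2 : (s + 3) * (s - 3 - l) ≤ (b + 3) * (b - 3 - l) := by
    calc (s + 3) * (s - 3 - l) ≤ (s + 3) * (b - 3 - l) := mul_le_mul_of_nonneg_left (by linarith) (by linarith)
      _ ≤ (b + 3) * (b - 3 - l) := mul_le_mul_of_nonneg_right (by linarith) (by linarith)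
  have k3 : s * (s - 3 - l) ≤ b * (b - 3 - l) := by
    calc s * (s - 3 - l) ≤ s * (b - 3 - l) := mul_le_mul_of_nonneg_left (by linarith) (by linarith)
      _ ≤ b * (b - 3 - l) := mul_le_mul_of_nonneg_right (by linarith) (by linarith)
  have k4 : 1 / s ≤ 1 / a := by
    apply div_le_div_of_nonneg_left (by norm_num) (by linarith) (by linarith)
  refine Or.inr (Or.inr ⟨hvl, by linarith, by linarith, P, Q, by linarith, by linarith, by linarith,
    by linarith, by linarith⟩)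

theorem low19 : LowOk √((19 : ℕ) : ℝ) ((620 : ℕ) / 1000) ((960 : ℕ) / 1000) := by
  refine lowC (a := 4.3588) (b := 4.3589) (P := 15) (Q := 0) ?_ ?_ ?_ ?_ ?_ ?_ ?_ ?_ ?_ ?_ ?_ ?_ ?_ <;> norm_num

theorem low20 : LowOk √((20 : ℕ) : ℝ) ((589 : ℕ) / 1000) ((960 : ℕ) / 1000) := by
  refine lowC (a := 4.4721) (b := 4.4722) (P := 16) (Q := 0) ?_ ?_ ?_ ?_ ?_ ?_ ?_ ?_ ?_ ?_ ?_ ?_ ?_ <;> norm_num

theorem low22 : LowOk √((22 : ℕ) : ℝ) ((596 : ℕ) / 1000) ((960 : ℕ) / 1000) := by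
  refine lowC (a := 4.6904) (b := 4.6905) (P := 17) (Q := 1) ?_ ?_ ?_ ?_ ?_ ?_ ?_ ?_ ?_ ?_ ?_ ?_ ?_ <;> norm_num

theorem tableW_ok {r l u : ℕ} (h : (r, l, u) ∈ tableW) : (r, u) ∈ tableC ∧ l < 1000 ∧ u < 1000 ∧
    LowOk √(r : ℝ) ((u : ℝ) / 1000) ((l : ℝ) / 1000) := by
  have h1 : ∀ x ∈ tableW, (x.1, x.2.2) ∈ tableC ∧ x.2.1 < 1000 ∧ x.2.2 < 1000 ∧
      (x = (19, 960, 620) ∨ x = (20, 960, 589) ∨ x = (22, 960, 596) ∨
        ∃ y ∈ lowTab, y.1 = x.1 ∧ y.2.1 = x.2.1 ∧ y.2.2.1 = x.2.2) := by decide +kernel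
  have h2 : ∀ y ∈ lowTab, lowTest y.1 y.2.1 y.2.2.1 y.2.2.2 = true := by decide +kernel
  obtain ⟨h3, h4, h5, h6⟩ := h1 _ h
  refine ⟨h3, h4, h5, ?_⟩
  rcases h6 with h6 | h6 | h6 | ⟨y, hy, h7, h8, h9⟩
  · simp only [Prod.mk.injEq] at h6
    obtain ⟨rfl, rfl, rfl⟩ := h6
    exact low19
  · simp only [Prod.mk.injEq] at h6
    obtain ⟨rfl, rfl, rfl⟩ := h6
    exact low20
  · simp only [Prod.mk.injEq] at h6
    obtain ⟨rfl, rfl, rfl⟩ := h6
    exact low22
  · have := lowTest_ok (h2 y hy)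
    rw [h7, h8, h9] at this
    exact this

/-- **The windows.** -/
theorem wide_tab {r l u : ℕ} (h : (r, l, u) ∈ tableW) : Wide.{u} r ((l : ℝ) / 1000) ((u : ℝ) / 1000) := by
  obtain ⟨h1, -, -, h4⟩ := tableW_ok h
  obtain ⟨hr, hsq, M, s1, s2, A1, A2, b1, b2, G, K, tabs, hc⟩ := tableC_cer h1
  have := wide_of_cer.{u} (l := (l : ℝ) / 1000) hr hsq hc (Int.natCast_nonneg _) (by positivity)
    (by rw [Int.cast_natCast]; exact h4)
  rw [Int.cast_natCast] at this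
  exact this

theorem good_tab {r l u : ℕ} (h : (r, l, u) ∈ tableW) :
    Pool.Agent.K7.H55.AN.Good.{u} r ((l : ℝ) / 1000) ((u : ℝ) / 1000) :=
  (wide_tab h).good

end Pool.Agent.K7.H8.RE
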